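import Pool.Agent.Lib.MP_2fd4e2_co.Arc.Sep
import Pool.Agent.Lib.MP_2fd4e2_co.Arc.Square

/-!
Trapezoids with one base on an arc that is locally a Lipschitz graph: cones.
-/

set_option autoImplicit false

namespace Pool.Agent.GenTrap

open Complex Set Filter Topology Pool.Agent.ArcTrap

theorem sign_const {h : ℂ → ℝ} (hh : Continuous h) {S : Set ℂ} (hS : IsPreconnected S)
    (h0 : ∀ z ∈ S, h z ≠ 0) {z w : ℂ} (hz : z ∈ S) (hw : w ∈ S) :
    (h z < 0 → h w < 0) ∧ (0 < h z → 0 < h w) := by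
  constructor
  · intro h1
    by_contra hcon
    push Not at hcon
    obtain ⟨x, hx, hx'⟩ := hS.intermediate_value hz hw hh.continuousOn ⟨h1.le, hcon⟩
    exact h0 x hx hx'
  · intro h1
    by_contra hcon
    push Not at hcon
    obtain ⟨x, hx, hx'⟩ := hS.intermediate_value hw hz hh.continuousOn ⟨hcon, h1.le⟩
    exact h0 x hx hx'

/-- the shape data -/
structure Shp (A p q : ℝ) : Prop where
  hA : 0 ≤ A
  hq : 0 < q
  hl : 0 < 1 + 2 * p
  hC : 2 * |p| * A < q * (1 - A ^ 2)

theorem Shp.neg {A p q : ℝ} (H : Shp A p q) : 2 * |-p| * A < q * (1 - A ^ 2) := by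
  rw [abs_neg]; exact H.hC

/-- the direction `v` is in the closed cone around the positive real axis -/
def Fwd (A : ℝ) (v : ℂ) : Prop := 0 < v.re ∧ |v.im| ≤ A * v.re

/-- the direction `v` is in the open cone around the positive imaginary axis -/
def Lft (A : ℝ) (v : ℂ) : Prop := A * |v.re| < v.im

theorem lft_mul {A p q : ℝ} (hA : 0 ≤ A) (hq : 0 < q) (hC : 2 * |p| * A < q * (1 - A ^ 2))
    {v : ℂ} (hv : Fwd A v) : Lft A ((⟨p, q⟩ : ℂ) * v) := by
  obtain ⟨hpos, hv⟩ := hv
  unfold Lft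
  simp only [Complex.mul_re, Complex.mul_im]
  have h1 := abs_le.mp hv
  have hp1 : -(|p| * (A * v.re)) ≤ p * v.im := by
    have h2 : |p * v.im| ≤ |p| * (A * v.re) := by
      rw [abs_mul]; exact mul_le_mul_of_nonneg_left hv (abs_nonneg _)
    exact (abs_le.mp h2).1
  have hr : |p * v.re - q * v.im| ≤ (|p| + q * A) * v.re := by
    have h3 : |p * v.re| = |p| * v.re := by rw [abs_mul, abs_of_pos hpos]
    have h4 : |q * v.im| ≤ q * (A * v.re) := by
      rw [abs_mul, abs_of_pos hq]; exact mul_le_mul_of_nonneg_left hv hq.le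
    have h5 := abs_sub (p * v.re) (q * v.im)
    linarith
  have h6 := mul_le_mul_of_nonneg_left hr hA
  have h7 := mul_pos (show 0 < q * (1 - A ^ 2) - 2 * |p| * A by linarith) hpos
  linarith

theorem Shp.lft3 {A p q : ℝ} (H : Shp A p q) {v : ℂ} (hv : Fwd A v) :
    Lft A ((⟨p, q⟩ : ℂ) * v) := lft_mul H.hA H.hq H.hC hv

theorem Shp.lft4 {A p q : ℝ} (H : Shp A p q) {v : ℂ} (hv : Fwd A v) :
    Lft A ((⟨-p, q⟩ : ℂ) * v) := lft_mul H.hA H.hq (by rw [abs_neg]; exact H.hC) hv

theorem Lft.ne_zero {A : ℝ} {v : ℂ} (h : Lft A v) : v ≠ 0 := by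
  rintro rfl
  simp [Lft] at h

/-- a left direction is not a forward or backward direction -/
theorem Lft.ne_fwd {A : ℝ} {v w : ℂ} (h : Lft A w) (hv : Fwd A v ∨ Fwd A (-v)) : w ≠ v := by
  rintro rfl
  unfold Lft at h
  rcases hv with ⟨h1, h2⟩ | ⟨h1, h2⟩
  · have := le_abs_self w.im
    rw [abs_of_pos h1] at h
    linarith
  · rw [Complex.neg_re, Complex.neg_im, abs_neg] at h2
    rw [Complex.neg_re] at h1
    have := le_abs_self w.im
    rw [abs_of_neg (show w.re < 0 by linarith)] at h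
    linarith

theorem lft_convex (A : ℝ) (hA : 0 ≤ A) : Convex ℝ {v : ℂ | Lft A v} := by
  intro x hx y hy s t hs ht hst
  have hx' : A * |x.re| < x.im := hx
  have hy' : A * |y.re| < y.im := hy
  show A * |(s • x + t • y).re| < (s • x + t • y).im
  have e1 : (s • x + t • y).re = s * x.re + t * y.re := by
    simp only [Complex.add_re, Complex.real_smul, Complex.re_ofReal_mul]
  have e2 : (s • x + t • y).im = s * x.im + t * y.im := by
    simp only [Complex.add_im, Complex.real_smul, Complex.im_ofReal_mul]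
  rw [e1, e2]
  have h1 : |s * x.re + t * y.re| ≤ s * |x.re| + t * |y.re| := by
    refine (abs_add_le _ _).trans ?_
    rw [abs_mul, abs_mul, abs_of_nonneg hs, abs_of_nonneg ht]
  have h2 := mul_le_mul_of_nonneg_left h1 hA
  rcases eq_or_lt_of_le hs with h3 | h3
  · rw [← h3] at hst h2 ⊢
    have : t = 1 := by linarith
    rw [this] at h2 ⊢
    linarith
  · have k1 := mul_lt_mul_of_pos_left hx' h3
    have k2 := mul_le_mul_of_nonneg_left hy'.le ht
    linarith

end Pool.Agent.GenTrap
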