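import Pool.Agent.Lib.MP_2fd4e2_co.Gen.SepG

/-!
The corner at the start of the arc.
-/

set_option autoImplicit false

namespace Pool.Agent.GenTrap

open Complex Set Filter Topology Pool.Agent.ArcTrap Pool.Agent.LipTrap

/-- coordinates at the corner -/
noncomputable def Wc (P τ z : ℂ) : ℂ := (z - P) / τ

theorem seg_coord {P τ z w x : ℂ} (hx : x ∈ segment ℝ z w) :
    ∃ θ ∈ Icc (0 : ℝ) 1, x = z + (θ : ℂ) * (w - z) ∧
      (Wc P τ x).re = (1 - θ) * (Wc P τ z).re + θ * (Wc P τ w).re ∧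
      (Wc P τ x).im = (1 - θ) * (Wc P τ z).im + θ * (Wc P τ w).im ∧
      ‖Wc P τ x‖ ≤ (1 - θ) * ‖Wc P τ z‖ + θ * ‖Wc P τ w‖ := by
  rw [segment_eq_image'] at hx
  obtain ⟨θ, hθ, rfl⟩ := hx
  have e0 : z + θ • (w - z) = z + (θ : ℂ) * (w - z) := by rw [Complex.real_smul]
  have e : Wc P τ (z + θ • (w - z)) = ((1 - θ : ℝ) : ℂ) * Wc P τ z + (θ : ℂ) * Wc P τ w := by
    rw [e0]; unfold Wc; push_cast; ring
  refine ⟨θ, hθ, e0, ?_, ?_, ?_⟩
  · rw [e, Complex.add_re, Complex.re_ofReal_mul, Complex.re_ofReal_mul]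
  · rw [e, Complex.add_im, Complex.im_ofReal_mul, Complex.im_ofReal_mul]
  · rw [e]
    refine (norm_add_le _ _).trans ?_
    rw [norm_mul, norm_mul, Complex.norm_real, Complex.norm_real, Real.norm_eq_abs,
      Real.norm_eq_abs, abs_of_nonneg (show 0 ≤ 1 - θ by linarith [hθ.2]), abs_of_nonneg hθ.1]

/-- the arc has the tangent direction `τ` at its start -/
def Tan (α : ℝ → ℂ) (τ : ℂ) : Prop :=
  ∀ η > 0, ∃ ρ > 0, ∀ t, 0 ≤ t → t ≤ ρ → ‖Wc (α 0) τ (α t) - (t : ℂ)‖ ≤ η * t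

/-- the closing path starts in a cone -/
def ConeG (α γ : ℝ → ℂ) (τ : ℂ) (k1 k2 : ℝ) : Prop :=
  ∀ᶠ s in 𝓝[>] (0 : ℝ), 0 < (Wc (α 0) τ (γ s)).im ∧
    k2 * (Wc (α 0) τ (γ s)).im ≤ (Wc (α 0) τ (γ s)).re ∧
    (Wc (α 0) τ (γ s)).re ≤ k1 * (Wc (α 0) τ (γ s)).im

def CorG (α γ : ℝ → ℂ) (p q : ℝ) : Prop :=
  ∃ τ : ℂ, τ ≠ 0 ∧ ∃ k1 k2, Tan α τ ∧ q * (k1 - k2) < 1 + 2 * p ∧ 0 < q * k2 + p ∧
    ConeG α γ τ k1 k2

/-- all data -/
structure Data (α γ : ℝ → ℂ) (A p q : ℝ) (h : ℂ → ℝ) : Prop where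
  S : Curve α A γ
  H : Shp A p q
  hh : Continuous h
  hz : ∀ z, h z = 0 → z ∈ Jc α γ
  small : ∀ ε0 > 0, ∃ δ > 0, ∀ t u, ε0 ≤ t → t < u → u ≤ 1 - ε0 → u - t < δ →
      h (v3 α p q t u) < 0 ∧ h (v4 α p q t u) < 0 ∧ 0 < h (w3 α p q t u) ∧
      0 < h (w4 α p q t u)
  legP : ∀ u ∈ Ioc (0 : ℝ) 1, v4 α p q 0 u ∉ Jc α γ
  legQ : ∀ t ∈ Ico (0 : ℝ) 1, v3 α p q t 1 ∉ Jc α γ

variable {α γ : ℝ → ℂ} {A p q : ℝ} {h : ℂ → ℝ} {τ : ℂ} {k1 k2 : ℝ}

theorem Data.seg (D : Data α γ A p q h) {z w : ℂ} (hs : ∀ x ∈ segment ℝ z w, x ∉ Jc α γ) :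
    (h z < 0 → h w < 0) ∧ (0 < h z → 0 < h w) :=
  sign_const D.hh (convex_segment z w).isPreconnected (fun x hx h0 => hs x hx (D.hz x h0))
    (left_mem_segment ℝ z w) (right_mem_segment ℝ z w)

theorem Data.loc (D : Data α γ A p q h) (hτ : τ ≠ 0) (hcone : ConeG α γ τ k1 k2) {δ : ℝ}
    (hδ : 0 < δ) :
    ∃ ρ > 0, ∀ z ∈ Jc α γ, ‖Wc (α 0) τ z‖ ≤ ρ → z = α 0 ∨
      (0 < (Wc (α 0) τ z).im ∧ k2 * (Wc (α 0) τ z).im ≤ (Wc (α 0) τ z).re ∧
        (Wc (α 0) τ z).re ≤ k1 * (Wc (α 0) τ z).im) ∨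
      ∃ t, 0 < t ∧ t < δ ∧ t ≤ 1 ∧ z = α t := by
  have S := D.S
  obtain ⟨s0, hs0, hcs⟩ := mem_nhdsGT_iff_exists_Ioo_subset.mp hcone
  have hs0' : 0 < s0 := hs0
  set s1 := min s0 1 with hs1
  have hs1pos : 0 < s1 := lt_min hs0' zero_lt_one
  set d1 := min δ 1 with hd1
  have hd1pos : 0 < d1 := lt_min hδ zero_lt_one
  have hK : IsCompact (α '' Icc d1 1 ∪ γ '' Icc s1 1) :=
    (isCompact_Icc.image S.hα).union (isCompact_Icc.image S.hγ)
  have hn : α 0 ∈ (α '' Icc d1 1 ∪ γ '' Icc s1 1)ᶜ := by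
    rintro (⟨t, ht, heq⟩ | ⟨s, hs, heq⟩)
    · have := S.inj ⟨by linarith [ht.1], ht.2⟩ ⟨le_rfl, zero_le_one⟩ heq
      linarith [ht.1]
    · rcases eq_or_lt_of_le hs.2 with h' | h'
      · rw [h', S.g1] at heq
        have := S.inj ⟨zero_le_one, le_rfl⟩ ⟨le_rfl, zero_le_one⟩ heq
        linarith
      · exact S.av s ⟨by linarith [hs.1], h'⟩ 0 ⟨le_rfl, zero_le_one⟩ heq
  obtain ⟨ρ, hρ, hball⟩ := Metric.isOpen_iff.mp hK.isClosed.isOpen_compl _ hn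
  have hτn : 0 < ‖τ‖ := norm_pos_iff.mpr hτ
  refine ⟨ρ / (2 * ‖τ‖), by positivity, ?_⟩
  intro z hzJ hzW
  have hzb : z ∈ Metric.ball (α 0) ρ := by
    rw [Metric.mem_ball, dist_eq_norm]
    have e : ‖z - α 0‖ = ‖Wc (α 0) τ z‖ * ‖τ‖ := by
      unfold Wc
      rw [norm_div]
      field_simp
    rw [e]
    calc ‖Wc (α 0) τ z‖ * ‖τ‖ ≤ ρ / (2 * ‖τ‖) * ‖τ‖ :=
          mul_le_mul_of_nonneg_right hzW hτn.le
      _ = ρ / 2 := by field_simp
      _ < ρ := by linarith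
  have hnot := hball hzb
  rcases hzJ with ⟨t, ht, rfl⟩ | ⟨s, hs, rfl⟩
  · rcases eq_or_lt_of_le ht.1 with h6 | h6
    · left; rw [← h6]
    · right; right
      have h7 : t < d1 := by
        by_contra hcon
        push Not at hcon
        exact hnot (Or.inl ⟨t, ⟨hcon, ht.2⟩, rfl⟩)
      exact ⟨t, h6, h7.trans_le (min_le_left _ _), ht.2, rfl⟩
  · rcases eq_or_lt_of_le hs.1 with h6 | h6
    · left; rw [← h6, S.g0]
    · right; left
      have h7 : s < s1 := by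
        by_contra hcon
        push Not at hcon
        exact hnot (Or.inr ⟨s, ⟨hcon, hs.2⟩, rfl⟩)
      exact hcs ⟨h6, h7.trans_le (min_le_left _ _)⟩

theorem Lft.smul {c : ℝ} (hc : 0 < c) {v : ℂ} (hv : Lft A v) : Lft A ((c : ℂ) * v) := by
  unfold Lft at *
  rw [Complex.re_ofReal_mul, Complex.im_ofReal_mul, abs_mul, abs_of_pos hc]
  have := mul_lt_mul_of_pos_left hv hc
  linarith

theorem Wc_add (P τ z w : ℂ) : Wc P τ (z + w) = Wc P τ z + w / τ := by unfold Wc; ring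

theorem Wc_sub' (P τ z w : ℂ) : Wc P τ (z - w) = Wc P τ z - w / τ := by unfold Wc; ring

theorem Wc_diff (P τ z w : ℂ) : Wc P τ z - Wc P τ w = (z - w) / τ := by unfold Wc; ring

theorem Wc_v3 (P τ : ℂ) (t u : ℝ) : Wc P τ (v3 α p q t u) =
    Wc P τ (α u) + ⟨p, q⟩ * (Wc P τ (α u) - Wc P τ (α t)) := by
  unfold v3; rw [Wc_add, Wc_diff]; ring

theorem Wc_v4 (P τ : ℂ) (t u : ℝ) : Wc P τ (v4 α p q t u) =
    Wc P τ (α t) + ⟨-p, q⟩ * (Wc P τ (α u) - Wc P τ (α t)) := by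
  unfold v4; rw [Wc_add, Wc_diff]; ring

theorem Wc_w3 (P τ : ℂ) (t u : ℝ) : Wc P τ (w3 α p q t u) =
    Wc P τ (α u) - ⟨p, q⟩ * (Wc P τ (α u) - Wc P τ (α t)) := by
  unfold w3; rw [Wc_sub', Wc_diff]; ring

theorem continuous_Wc (P τ : ℂ) : Continuous (Wc P τ) := by unfold Wc; fun_prop

/-- real and imaginary parts near the tangent -/
theorem Tan.parts {η t : ℝ} {w : ℂ} (h : ‖w - (t : ℂ)‖ ≤ η * t) :
    |w.re - t| ≤ η * t ∧ |w.im| ≤ η * t := by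
  have h1 := (Complex.abs_re_le_norm (w - (t : ℂ))).trans h
  have h2 := (Complex.abs_im_le_norm (w - (t : ℂ))).trans h
  simp only [Complex.sub_re, Complex.sub_im, Complex.ofReal_re, Complex.ofReal_im, sub_zero] at h1 h2
  exact ⟨h1, h2⟩

/-- **The region between the arc and the closing path.** -/
theorem Data.lower (D : Data α γ A p q h) (hτ : τ ≠ 0) (htan : Tan α τ)
    (hcone : ConeG α γ τ k1 k2) :
    ∃ δ > 0, ∀ t u, 0 ≤ t → t < u → u ≤ δ →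
      k1 * (Wc (α 0) τ (v3 α p q t u)).im < (Wc (α 0) τ (v3 α p q t u)).re →
      h (v3 α p q t u) < 0 := by
  have S := D.S
  have H := D.H
  set P := α 0 with hP
  obtain ⟨e, he, ε, hε, hce⟩ := S.loc 0 ⟨le_rfl, zero_le_one⟩
  obtain ⟨ρ, hρ, hloc⟩ := D.loc hτ hcone hε
  set k := 1 + |k1| with hk
  have ak1 := abs_nonneg k1
  have hkpos : 0 < k := by positivity
  obtain ⟨ρ1, hρ1, hT⟩ := htan (1 / (4 * k)) (by positivity)
  have hηk : k * (1 / (4 * k)) = 1 / 4 := by field_simp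
  set κn := ‖(⟨p, q⟩ : ℂ)‖ with hκn
  have hκn0 : 0 ≤ κn := norm_nonneg _
  -- continuity of the arc at the start
  have hcont : ∀ᶠ s in 𝓝 (0 : ℝ), ‖Wc P τ (α s)‖ < ρ / (1 + 2 * κn) := by
    have hc : Continuous (fun s => ‖Wc P τ (α s)‖) := ((continuous_Wc P τ).comp S.hα).norm
    apply (hc.tendsto 0).eventually (gt_mem_nhds _)
    show ‖Wc P τ (α 0)‖ < _
    unfold Wc
    rw [hP, sub_self, zero_div, norm_zero]
    positivity
  obtain ⟨δ1, hδ1, hδ1'⟩ := Metric.eventually_nhds_iff.mp hcont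
  refine ⟨min (min ρ1 (1 / 2)) (min (ε / 2) (δ1 / 2)), by positivity, ?_⟩
  intro t u ht htu hu hK
  have hu0 : 0 < u := by linarith
  have u1 : u ≤ ρ1 := hu.trans ((min_le_left _ _).trans (min_le_left _ _))
  have u2 : u ≤ 1 / 2 := hu.trans ((min_le_left _ _).trans (min_le_right _ _))
  have u3 : u ≤ ε / 2 := hu.trans ((min_le_right _ _).trans (min_le_left _ _))
  have u4 : u ≤ δ1 / 2 := hu.trans ((min_le_right _ _).trans (min_le_right _ _))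
  have hnorm : ∀ s, 0 ≤ s → s ≤ u → ‖Wc P τ (α s)‖ < ρ / (1 + 2 * κn) := by
    intro s h1 h2
    apply hδ1'
    rw [Real.dist_eq, sub_zero, abs_of_nonneg h1]
    linarith
  -- the point `α u`
  obtain ⟨a1, a2⟩ := Tan.parts (hT u hu0.le u1)
  have hKu : k1 * (Wc P τ (α u)).im < (Wc P τ (α u)).re := by
    have b1 : |k1 * (Wc P τ (α u)).im| ≤ |k1| * (1 / (4 * k) * u) := by
      rw [abs_mul]; exact mul_le_mul_of_nonneg_left a2 ak1
    have b2 := (abs_le.mp b1).2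
    have b3 := (abs_le.mp a1).1
    have b4 : k * (1 / (4 * k) * u) = 1 / 4 * u := by rw [← mul_assoc, hηk]
    have b5 : k * (1 / (4 * k) * u) = 1 / (4 * k) * u + |k1| * (1 / (4 * k) * u) := by
      rw [hk]; ring
    linarith
  -- a nearby small trapezoid
  have hsmall : ∀ᶠ t' in 𝓝[<] u, h (v3 α p q t' u) < 0 := by
    obtain ⟨δ2, hδ2, hs⟩ := D.small (u / 2) (by positivity)
    filter_upwards [Ioo_mem_nhdsLT (show max (u / 2) (u - δ2) < u from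
      max_lt (by linarith) (by linarith))] with t' ht'
    have h1 := (le_max_left (u / 2) (u - δ2)).trans_lt ht'.1
    have h2 := (le_max_right (u / 2) (u - δ2)).trans_lt ht'.1
    exact (hs t' u h1.le ht'.2 (by linarith) (by linarith)).1
  have hlim : ∀ᶠ t' in 𝓝[<] u, k1 * (Wc P τ (v3 α p q t' u)).im < (Wc P τ (v3 α p q t' u)).re := by
    have hα := S.hα
    have hc1 : Continuous (fun t' => Wc P τ (v3 α p q t' u)) := by
      apply (continuous_Wc P τ).comp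
      unfold v3; fun_prop
    have hc : Continuous (fun t' => (Wc P τ (v3 α p q t' u)).re - k1 * (Wc P τ (v3 α p q t' u)).im) :=
      (Complex.continuous_re.comp hc1).sub (continuous_const.mul (Complex.continuous_im.comp hc1))
    have h1 := (hc.tendsto u).mono_left (nhdsWithin_le_nhds (s := Iio u))
    have e1 : v3 α p q u u = α u := by unfold v3; rw [sub_self, mul_zero, add_zero]
    rw [e1] at h1
    filter_upwards [h1.eventually (lt_mem_nhds (show (0 : ℝ) < _ by linarith))] with t' ht'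
    linarith
  have hrange : ∀ᶠ t' in 𝓝[<] u, t' ∈ Ioo 0 u := Ioo_mem_nhdsLT hu0
  obtain ⟨t', ⟨⟨ht'1, ht'2⟩, ht'3⟩⟩ := ((hsmall.and hlim).and hrange).exists
  refine (D.seg (z := v3 α p q t' u) (w := v3 α p q t u) ?_).1 ht'1
  intro x hx hxJ
  obtain ⟨θ, hθ, ex, er, ei, en⟩ := seg_coord (P := P) (τ := τ) hx
  have hθ' : 0 ≤ 1 - θ := by linarith [hθ.2]
  have huI : u ∈ Icc (0 : ℝ) 1 := ⟨hu0.le, by linarith⟩
  have hue : |u - 0| < ε := by rw [sub_zero, abs_of_pos hu0]; linarith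
  have F1 : Fwd A ((α u - α t') / e) := hce t' ⟨ht'3.1.le, by linarith [ht'3.2]⟩ u huI
    (by rw [sub_zero, abs_of_pos ht'3.1]; linarith [ht'3.2]) hue ht'3.2
  have F2 : Fwd A ((α u - α t) / e) := hce t ⟨ht, by linarith⟩ u huI
    (by rw [sub_zero, abs_of_nonneg ht]; linarith) hue htu
  have hside : Lft A ((((1 - θ : ℝ) : ℂ) * (⟨p, q⟩ * (α u - α t')) +
      (θ : ℂ) * (⟨p, q⟩ * (α u - α t))) / e) := by
    have L1 := H.lft3 F1
    have L2 := H.lft3 F2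
    have := lft_convex A S.hA (show _ ∈ {v | Lft A v} from L1) (show _ ∈ {v | Lft A v} from L2)
      hθ' hθ.1 (by ring)
    have e1 : (((1 - θ : ℝ) : ℂ) * (⟨p, q⟩ * (α u - α t')) +
      (θ : ℂ) * (⟨p, q⟩ * (α u - α t))) / e = (1 - θ) • ((⟨p, q⟩ : ℂ) * ((α u - α t') / e))
        + θ • ((⟨p, q⟩ : ℂ) * ((α u - α t) / e)) := by
      simp only [Complex.real_smul]; ring
    rw [e1]; exact this
  have ex' : x = α u + (((1 - θ : ℝ) : ℂ) * (⟨p, q⟩ * (α u - α t')) +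
      (θ : ℂ) * (⟨p, q⟩ * (α u - α t))) := by
    rw [ex]; unfold v3; push_cast; ring
  -- size
  have hsz : ∀ s, 0 ≤ s → s ≤ u → ‖Wc P τ (v3 α p q s u)‖ ≤ ρ := by
    intro s h1 h2
    rw [Wc_v3]
    have n1 := hnorm u hu0.le le_rfl
    have n2 := hnorm s h1 h2
    have n3 : ‖(⟨p, q⟩ : ℂ) * (Wc P τ (α u) - Wc P τ (α s))‖ ≤ κn * (2 * (ρ / (1 + 2 * κn))) := by
      rw [norm_mul]
      apply mul_le_mul_of_nonneg_left _ hκn0
      refine (norm_sub_le _ _).trans ?_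
      linarith
    have n4 : ρ / (1 + 2 * κn) + κn * (2 * (ρ / (1 + 2 * κn))) = ρ := by field_simp
    refine (norm_add_le _ _).trans ?_
    linarith
  have hxρ : ‖Wc P τ x‖ ≤ ρ := by
    have m1 := mul_le_mul_of_nonneg_left (hsz t' ht'3.1.le ht'3.2.le) hθ'
    have m2 := mul_le_mul_of_nonneg_left (hsz t ht htu.le) hθ.1
    linarith
  rcases hloc x hxJ hxρ with g1 | ⟨_, _, g3⟩ | ⟨s, g1, g2, g3, g4⟩
  · exact chord_not_side hce ⟨le_rfl, zero_le_one⟩ huI (by rw [sub_self, abs_zero]; exact hε) hue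
      (g1.symm.trans ex') (Or.inl hside)
  · rw [er, ei] at g3
    rcases eq_or_lt_of_le hθ.1 with h5 | h5
    · rw [← h5] at g3
      linarith
    · have := mul_lt_mul_of_pos_left hK h5
      have := mul_le_mul_of_nonneg_left ht'2.le hθ'
      linarith
  · exact chord_not_side hce ⟨g1.le, g3⟩ huI (by rw [sub_zero, abs_of_pos g1]; exact g2) hue
      (g4.symm.trans ex') (Or.inl hside)

end Pool.Agent.GenTrap
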