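import Pool.Agent.Lib.MP_2fd4e2_co.Gen.Corner

/-!
The corner at the start of the arc, second part.
-/

set_option autoImplicit false

namespace Pool.Agent.GenTrap

open Complex Set Filter Topology Pool.Agent.ArcTrap Pool.Agent.LipTrap

variable {α γ : ℝ → ℂ} {A p q : ℝ} {h : ℂ → ℝ} {τ : ℂ} {k1 k2 : ℝ}

theorem abs_mul_le {x y X Y : ℝ} (hx : |x| ≤ X) (hy : |y| ≤ Y) : |x * y| ≤ X * Y := by
  rw [abs_mul]
  exact mul_le_mul hx hy (abs_nonneg _) ((abs_nonneg _).trans hx)

/-- **The region beyond the closing path.** -/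
theorem Data.upper (D : Data α γ A p q h) (hτ : τ ≠ 0) (htan : Tan α τ)
    (hcone : ConeG α γ τ k1 k2) :
    ∃ ρ > 0, ∀ z : ℂ, ‖Wc (α 0) τ z‖ ≤ ρ →
      (Wc (α 0) τ z).re < k2 * (Wc (α 0) τ z).im → 0 < h z := by
  have S := D.S
  have H := D.H
  have hq := H.hq
  set P := α 0 with hP
  obtain ⟨e, he, ε, hε, hce⟩ := S.loc 0 ⟨le_rfl, zero_le_one⟩
  set k := 1 + |k1| + |k2| with hk
  have ak1 := abs_nonneg k1
  have ak2 := abs_nonneg k2
  have ap := abs_nonneg p
  have hkpos : 0 < k := by positivity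
  have hk1 : 1 ≤ k := by linarith
  -- the small factor
  set m := 1 + |p| + q with hm
  have hmpos : 0 < m := by positivity
  have hm1 : 1 ≤ m := by linarith
  set c := 1 / (4 * (m * k)) with hc
  have hmk : 0 < m * k := by positivity
  have hcpos : 0 < c := by positivity
  have hcmk : m * k * c = 1 / 4 := by rw [hc]; field_simp
  have hcm : m * c ≤ 1 / 4 := by
    have : m * c * 1 ≤ m * c * k := mul_le_mul_of_nonneg_left hk1 (by positivity)
    calc m * c = m * c * 1 := by ring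
      _ ≤ m * c * k := this
      _ = m * k * c := by ring
      _ = 1 / 4 := hcmk
  have hc1 : c ≤ 1 / 4 := by
    have : 1 * c ≤ m * c := mul_le_mul_of_nonneg_right hm1 hcpos.le
    linarith
  have hcq : c * q ≤ 1 / 4 := by
    have : q * c ≤ m * c := mul_le_mul_of_nonneg_right (by linarith) hcpos.le
    linarith
  have hcp : c * |p| ≤ 1 / 4 := by
    have : |p| * c ≤ m * c := mul_le_mul_of_nonneg_right (by linarith) hcpos.le
    linarith
  have hcqpos : 0 < c * q := by positivity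
  have hck1 : |k1| * (c * q) ≤ 1 / 4 := by
    have h1 : |k1| * q ≤ m * k := by
      have := mul_le_mul (show |k1| ≤ k by linarith) (show q ≤ m by linarith) hq.le hkpos.le
      linarith
    have := mul_le_mul_of_nonneg_right h1 hcpos.le
    linarith
  -- deviation
  set η := min (1 / (16 * k)) (c * q / 32) with hη
  have hηpos : 0 < η := by positivity
  have hη1 : k * η ≤ 1 / 16 := by
    calc k * η ≤ k * (1 / (16 * k)) := mul_le_mul_of_nonneg_left (min_le_left _ _) hkpos.le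
      _ = 1 / 16 := by field_simp
  have hη2 : η ≤ c * q / 32 := min_le_right _ _
  have hη3 : η ≤ 1 / 16 := by
    have : 1 * η ≤ k * η := mul_le_mul_of_nonneg_right hk1 hηpos.le
    linarith
  obtain ⟨ρ1, hρ1, hT⟩ := htan η hηpos
  obtain ⟨ρ, hρ, hloc⟩ := D.loc hτ hcone (show 0 < min ε ρ1 from lt_min hε hρ1)
  set κ : ℂ := ⟨p, q⟩ with hκ
  -- the parameter
  obtain ⟨u, hu0, u1, u2, u3, u4⟩ : ∃ u > 0, u ≤ ρ1 ∧ u ≤ 1 / 2 ∧ u ≤ ε / 2 ∧
      8 * (1 + k + m) * u ≤ ρ := by
    refine ⟨min (min ρ1 (1 / 2)) (min (ε / 2) (ρ / (8 * (1 + k + m)))), by positivity, ?_, ?_, ?_,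
      ?_⟩
    · exact (min_le_left _ _).trans (min_le_left _ _)
    · exact (min_le_left _ _).trans (min_le_right _ _)
    · exact (min_le_right _ _).trans (min_le_left _ _)
    · have h1 : min (min ρ1 (1 / 2)) (min (ε / 2) (ρ / (8 * (1 + k + m)))) ≤
        ρ / (8 * (1 + k + m)) := (min_le_right _ _).trans (min_le_right _ _)
      calc _ ≤ 8 * (1 + k + m) * (ρ / (8 * (1 + k + m))) :=
            mul_le_mul_of_nonneg_left h1 (by positivity)
        _ = ρ := by field_simp
  have huI : u ∈ Icc (0 : ℝ) 1 := ⟨hu0.le, by linarith⟩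
  have hue : |u - 0| < ε := by rw [sub_zero, abs_of_pos hu0]; linarith
  -- the point `α u`
  set W0 := Wc P τ (α u) with hW0
  have hTu : ‖W0 - (u : ℂ)‖ ≤ η * u := hT u hu0.le u1
  obtain ⟨a1, a2⟩ := Tan.parts hTu
  have a1' := abs_le.mp a1
  have a2' := abs_le.mp a2
  have hηu : η * u ≤ 1 / 16 * u := mul_le_mul_of_nonneg_right hη3 hu0.le
  have hηu2 : η * u ≤ c * q / 32 * u := mul_le_mul_of_nonneg_right hη2 hu0.le
  have hW0n : ‖W0‖ ≤ 2 * u := by
    have h1 : ‖W0‖ ≤ ‖W0 - (u : ℂ)‖ + ‖(u : ℂ)‖ := by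
      calc ‖W0‖ = ‖(W0 - (u : ℂ)) + (u : ℂ)‖ := by rw [sub_add_cancel]
        _ ≤ _ := norm_add_le _ _
    rw [Complex.norm_real, Real.norm_eq_abs, abs_of_pos hu0] at h1
    linarith
  have hk1u : |k1 * W0.im| ≤ |k1| * (η * u) := abs_mul_le le_rfl a2
  have hk1η : |k1| * (η * u) ≤ 1 / 16 * u := by
    have : |k1| * η ≤ k * η := mul_le_mul_of_nonneg_right (by linarith) hηpos.le
    have := mul_le_mul_of_nonneg_right (this.trans hη1) hu0.le
    linarith
  have hKu : k1 * W0.im < W0.re := by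
    have := (abs_le.mp hk1u).2
    linarith
  -- the second point
  set z2 : ℂ := α u - (c : ℂ) * (κ * (α u - P)) with hz2
  have hWz2 : Wc P τ z2 = W0 - (c : ℂ) * (κ * W0) := by
    rw [hW0, hz2]; unfold Wc; ring
  have hz2re : (Wc P τ z2).re = W0.re - c * (p * W0.re - q * W0.im) := by
    rw [hWz2, Complex.sub_re, Complex.re_ofReal_mul, hκ, Complex.mul_re]
  have hz2im : (Wc P τ z2).im = W0.im - c * (p * W0.im + q * W0.re) := by
    rw [hWz2, Complex.sub_im, Complex.im_ofReal_mul, hκ, Complex.mul_im]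
  have hp0 : |c * (p * W0.re)| ≤ 1 / 4 * (17 / 16 * u) := by
    have h1 : |W0.re| ≤ 17 / 16 * u := by rw [abs_le]; constructor <;> linarith
    have h2 : |c * p| ≤ 1 / 4 := by rw [abs_mul, abs_of_pos hcpos]; exact hcp
    have h3 := abs_mul_le h2 h1
    rwa [mul_assoc] at h3
  have hp1 : |c * (p * W0.im)| ≤ 1 / 4 * (η * u) := by
    have h2 : |c * p| ≤ 1 / 4 := by rw [abs_mul, abs_of_pos hcpos]; exact hcp
    have h3 := abs_mul_le h2 a2
    rwa [mul_assoc] at h3
  have hq1 : |c * (q * W0.im)| ≤ 1 / 4 * (η * u) := by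
    have h2 : |c * q| ≤ 1 / 4 := by rw [abs_of_pos hcqpos]; exact hcq
    have h3 := abs_mul_le h2 a2
    rwa [mul_assoc] at h3
  have hp0' := abs_le.mp hp0
  have hp1' := abs_le.mp hp1
  have hq1' := abs_le.mp hq1
  have hz2re1 : 1 / 2 * u ≤ (Wc P τ z2).re := by rw [hz2re]; linarith
  have hz2re2 : (Wc P τ z2).re ≤ 2 * u := by rw [hz2re]; linarith
  have hcqW : c * (q * W0.re) ≤ c * q * (17 / 16 * u) := by
    have := mul_le_mul_of_nonneg_left (show W0.re ≤ 17 / 16 * u by linarith) hcqpos.le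
    linarith
  have hcqW' : c * q * (15 / 16 * u) ≤ c * (q * W0.re) := by
    have := mul_le_mul_of_nonneg_left (show 15 / 16 * u ≤ W0.re by linarith) hcqpos.le
    linarith
  have hcqu : 0 < c * q * u := by positivity
  have hz2im1 : (Wc P τ z2).im ≤ -(c * q / 2 * u) := by rw [hz2im]; linarith
  have hz2im2 : -(2 * (c * q) * u) ≤ (Wc P τ z2).im := by rw [hz2im]; linarith
  have hz2K : k1 * (Wc P τ z2).im < (Wc P τ z2).re := by
    have h1 : |(Wc P τ z2).im| ≤ 5 / 4 * (c * q) * u := by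
      rw [abs_le]
      constructor
      · rw [hz2im]; linarith
      · linarith
    have h2 := abs_mul_le (le_refl |k1|) h1
    have h3 := (abs_le.mp h2).2
    have h4 : |k1| * (5 / 4 * (c * q) * u) ≤ 5 / 16 * u := by
      have := mul_le_mul_of_nonneg_right hck1 hu0.le
      linarith
    linarith
  have hz2n : ‖Wc P τ z2‖ ≤ ρ := by
    have h1 := Complex.norm_le_abs_re_add_abs_im (Wc P τ z2)
    have h2 : |(Wc P τ z2).re| ≤ 2 * u := by rw [abs_le]; constructor <;> linarith
    have h3 : |(Wc P τ z2).im| ≤ 2 * u := by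
      have : 2 * (c * q) * u ≤ 2 * (1 / 4) * u := by
        have := mul_le_mul_of_nonneg_right hcq hu0.le
        linarith
      rw [abs_le]; constructor <;> linarith
    have h4 : 8 * (1 + k + m) * u ≥ 8 * u := by
      have := mul_nonneg (show 0 ≤ k + m by positivity) hu0.le
      linarith
    linarith
  -- first step
  have hsmall : ∀ᶠ t' in 𝓝[<] u, 0 < h (w3 α p q t' u) := by
    obtain ⟨δ2, hδ2, hs⟩ := D.small (u / 2) (by positivity)
    filter_upwards [Ioo_mem_nhdsLT (show max (u / 2) (u - δ2) < u from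
      max_lt (by linarith) (by linarith))] with t' ht'
    have h1 := (le_max_left (u / 2) (u - δ2)).trans_lt ht'.1
    have h2 := (le_max_right (u / 2) (u - δ2)).trans_lt ht'.1
    exact (hs t' u h1.le ht'.2 (by linarith) (by linarith)).2.2.1
  have hcW : Continuous (fun t' => Wc P τ (w3 α p q t' u)) := by
    have hα := S.hα
    apply (continuous_Wc P τ).comp
    unfold w3; fun_prop
  have ew : w3 α p q u u = α u := by unfold w3; rw [sub_self, mul_zero, sub_zero]
  have hlim : ∀ᶠ t' in 𝓝[<] u, k1 * (Wc P τ (w3 α p q t' u)).im < (Wc P τ (w3 α p q t' u)).re := by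
    have hcc : Continuous (fun t' => (Wc P τ (w3 α p q t' u)).re - k1 * (Wc P τ (w3 α p q t' u)).im) :=
      (Complex.continuous_re.comp hcW).sub (continuous_const.mul (Complex.continuous_im.comp hcW))
    have h1 := (hcc.tendsto u).mono_left (nhdsWithin_le_nhds (s := Iio u))
    rw [ew] at h1
    filter_upwards [h1.eventually (lt_mem_nhds (show (0 : ℝ) < _ by linarith))] with t' ht'
    linarith
  have hnrm : ∀ᶠ t' in 𝓝[<] u, ‖Wc P τ (w3 α p q t' u)‖ < ρ := by
    have h1 := (hcW.norm.tendsto u).mono_left (nhdsWithin_le_nhds (s := Iio u))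
    rw [ew] at h1
    refine h1.eventually (gt_mem_nhds ?_)
    have : 8 * (1 + k + m) * u ≥ 8 * u := by
      have := mul_nonneg (show 0 ≤ k + m by positivity) hu0.le
      linarith
    have h2 : ‖Wc P τ (α u)‖ ≤ 2 * u := hW0n
    linarith
  have hrange : ∀ᶠ t' in 𝓝[<] u, t' ∈ Ioo 0 u := Ioo_mem_nhdsLT hu0
  obtain ⟨t', ⟨⟨⟨ht'1, ht'2⟩, ht'4⟩, ht'3⟩⟩ := (((hsmall.and hlim).and hnrm).and hrange).exists
  have hpos2 : 0 < h z2 := by
    refine (D.seg (z := w3 α p q t' u) (w := z2) ?_).2 ht'1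
    intro x hx hxJ
    obtain ⟨θ, hθ, ex, er, ei, en⟩ := seg_coord (P := P) (τ := τ) hx
    have hθ' : 0 ≤ 1 - θ := by linarith [hθ.2]
    have F1 : Fwd A ((α u - α t') / e) := hce t' ⟨ht'3.1.le, by linarith [ht'3.2]⟩ u huI
      (by rw [sub_zero, abs_of_pos ht'3.1]; linarith [ht'3.2]) hue ht'3.2
    have F2 : Fwd A ((α u - α 0) / e) := hce 0 ⟨le_rfl, zero_le_one⟩ u huI
      (by rw [sub_self, abs_zero]; exact hε) hue hu0
    have hside : Lft A ((((1 - θ : ℝ) : ℂ) * (κ * (α u - α t')) +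
        (θ : ℂ) * ((c : ℂ) * (κ * (α u - P)))) / e) := by
      have L1 := H.lft3 F1
      have L2 := Lft.smul hcpos (H.lft3 F2)
      have := lft_convex A S.hA (show _ ∈ {v | Lft A v} from L1) (show _ ∈ {v | Lft A v} from L2)
        hθ' hθ.1 (by ring)
      have e1 : (((1 - θ : ℝ) : ℂ) * (κ * (α u - α t')) +
        (θ : ℂ) * ((c : ℂ) * (κ * (α u - P)))) / e
          = (1 - θ) • ((⟨p, q⟩ : ℂ) * ((α u - α t') / e))
          + θ • ((c : ℂ) * ((⟨p, q⟩ : ℂ) * ((α u - α 0) / e))) := by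
        simp only [Complex.real_smul]; rw [hκ, hP]; ring
      rw [e1]; exact this
    have ex' : x = α u + -(((1 - θ : ℝ) : ℂ) * (κ * (α u - α t')) +
        (θ : ℂ) * ((c : ℂ) * (κ * (α u - P)))) := by
      rw [ex, hz2]; unfold w3; rw [hκ]; push_cast; ring
    have hside' : Lft A (-(-(((1 - θ : ℝ) : ℂ) * (κ * (α u - α t')) +
        (θ : ℂ) * ((c : ℂ) * (κ * (α u - P)))) / e)) := by
      rw [neg_div, neg_neg]; exact hside
    have hxρ : ‖Wc P τ x‖ ≤ ρ := by
      have m1 := mul_le_mul_of_nonneg_left ht'4.le hθ'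
      have m2 := mul_le_mul_of_nonneg_left hz2n hθ.1
      linarith
    rcases hloc x hxJ hxρ with g1 | ⟨_, _, g3⟩ | ⟨s, g1, g2, g3, g4⟩
    · exact chord_not_side hce ⟨le_rfl, zero_le_one⟩ huI (by rw [sub_self, abs_zero]; exact hε) hue
        (g1.symm.trans ex') (Or.inr hside')
    · rw [er, ei] at g3
      rcases eq_or_lt_of_le hθ.1 with h5 | h5
      · rw [← h5] at g3
        linarith
      · have := mul_lt_mul_of_pos_left hz2K h5
        have := mul_le_mul_of_nonneg_left ht'2.le hθ'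
        linarith
    · exact chord_not_side hce ⟨g1.le, g3⟩ huI
        (by rw [sub_zero, abs_of_pos g1]; exact g2.trans_le (min_le_left _ _)) hue
        (g4.symm.trans ex') (Or.inr hside')
  -- second step
  set z1 : ℂ := P + τ * ⟨-((1 + |k2|) * u), -(c * q / 2 * u)⟩ with hz1
  have hWz1 : Wc P τ z1 = ⟨-((1 + |k2|) * u), -(c * q / 2 * u)⟩ := by
    rw [hz1]; unfold Wc; field_simp; ring
  have hz1re : (Wc P τ z1).re = -((1 + |k2|) * u) := by rw [hWz1]
  have hz1im : (Wc P τ z1).im = -(c * q / 2 * u) := by rw [hWz1]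
  have hz1n : ‖Wc P τ z1‖ ≤ ρ := by
    have h1 := Complex.norm_le_abs_re_add_abs_im (Wc P τ z1)
    rw [hz1re, hz1im, abs_neg, abs_neg, abs_of_nonneg (show 0 ≤ (1 + |k2|) * u by positivity),
      abs_of_nonneg (show 0 ≤ c * q / 2 * u by positivity)] at h1
    have h2 : (1 + |k2|) * u ≤ k * u := mul_le_mul_of_nonneg_right (by linarith) hu0.le
    have h3 : c * q / 2 * u ≤ u := by
      have := mul_le_mul_of_nonneg_right hcq hu0.le
      linarith
    have h4 : k * u + u ≤ 8 * (1 + k + m) * u := by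
      have : 0 ≤ k * u := by positivity
      have : 0 ≤ m * u := by positivity
      linarith
    linarith
  -- points of the arc near the corner
  have harc : ∀ s, 0 < s → s < min ε ρ1 → 15 / 16 * s ≤ (Wc P τ (α s)).re ∧
      |(Wc P τ (α s)).im| ≤ η * s := by
    intro s h1 h2
    obtain ⟨b1, b2⟩ := Tan.parts (hT s h1.le (h2.le.trans (min_le_right _ _)))
    have b1' := abs_le.mp b1
    have : η * s ≤ 1 / 16 * s := mul_le_mul_of_nonneg_right hη3 h1.le
    exact ⟨by linarith, b2⟩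
  have hpos1 : 0 < h z1 := by
    refine (D.seg (z := z2) (w := z1) ?_).2 hpos2
    intro x hx hxJ
    obtain ⟨θ, hθ, ex, er, ei, en⟩ := seg_coord (P := P) (τ := τ) hx
    have hθ' : 0 ≤ 1 - θ := by linarith [hθ.2]
    have hxρ : ‖Wc P τ x‖ ≤ ρ := by
      have m1 := mul_le_mul_of_nonneg_left hz2n hθ'
      have m2 := mul_le_mul_of_nonneg_left hz1n hθ.1
      linarith
    have him : (Wc P τ x).im ≤ -(c * q / 2 * u) := by
      rw [ei, hz1im]
      have := mul_le_mul_of_nonneg_left hz2im1 hθ'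
      linarith
    have hre : (Wc P τ x).re ≤ 2 * u := by
      rw [er, hz1re]
      have m1 := mul_le_mul_of_nonneg_left hz2re2 hθ'
      have m2 := mul_nonneg hθ.1 (show 0 ≤ (1 + |k2|) * u by positivity)
      have m3 := mul_nonneg hθ.1 hu0.le
      linarith
    have hneg : (Wc P τ x).im < 0 := by
      have : 0 < c * q / 2 * u := by positivity
      linarith
    rcases hloc x hxJ hxρ with g1 | ⟨g2, _, _⟩ | ⟨s, g1, g2, g3, g4⟩
    · rw [g1] at hneg
      unfold Wc at hneg
      rw [hP, sub_self, zero_div] at hneg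
      exact lt_irrefl _ hneg
    · have g2' : 0 < (Wc P τ x).im := g2
      linarith
    · obtain ⟨b1, b2⟩ := harc s g1 g2
      rw [← g4] at b1 b2
      have b3 : s ≤ 32 / 15 * u := by linarith
      have b4 := (abs_le.mp b2).1
      have b5 : η * s ≤ c * q / 32 * (32 / 15 * u) :=
        mul_le_mul hη2 b3 g1.le (by positivity)
      have : c * q / 32 * (32 / 15 * u) < c * q / 2 * u := by
        have : c * q / 32 * (32 / 15 * u) = c * q * u / 15 := by ring
        rw [this]; linarith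
      linarith
  -- last step
  refine ⟨ρ, hρ, ?_⟩
  intro z hzn hzK
  refine (D.seg (z := z1) (w := z) ?_).2 hpos1
  intro x hx hxJ
  obtain ⟨θ, hθ, ex, er, ei, en⟩ := seg_coord (P := P) (τ := τ) hx
  have hθ' : 0 ≤ 1 - θ := by linarith [hθ.2]
  have hxρ : ‖Wc P τ x‖ ≤ ρ := by
    have m1 := mul_le_mul_of_nonneg_left hz1n hθ'
    have m2 := mul_le_mul_of_nonneg_left hzn hθ.1
    linarith
  have hz1K : (Wc P τ z1).re < k2 * (Wc P τ z1).im := by
    rw [hz1re, hz1im]
    have h1 : |k2 * (c * q / 2 * u)| ≤ |k2| * (1 / 8 * u) := by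
      apply abs_mul_le le_rfl
      rw [abs_of_pos (show 0 < c * q / 2 * u by positivity)]
      have := mul_le_mul_of_nonneg_right hcq hu0.le
      linarith
    have h2 := (abs_le.mp h1).2
    have h3 : 0 ≤ |k2| * u := by positivity
    linarith
  have hxK : (Wc P τ x).re < k2 * (Wc P τ x).im := by
    rw [er, ei]
    rcases eq_or_lt_of_le hθ.1 with h5 | h5
    · rw [← h5]; linarith
    · have := mul_lt_mul_of_pos_left hzK h5
      have := mul_le_mul_of_nonneg_left hz1K.le hθ'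
      linarith
  rcases hloc x hxJ hxρ with g1 | ⟨_, g2, _⟩ | ⟨s, g1, g2, g3, g4⟩
  · rw [g1] at hxK
    unfold Wc at hxK
    rw [hP, sub_self, zero_div, Complex.zero_re, Complex.zero_im, mul_zero] at hxK
    exact lt_irrefl _ hxK
  · have g2' : k2 * (Wc P τ x).im ≤ (Wc P τ x).re := g2
    linarith
  · obtain ⟨b1, b2⟩ := harc s g1 g2
    rw [← g4] at b1 b2
    have b3 := (abs_le.mp (abs_mul_le (le_refl |k2|) b2)).2
    have b4 : |k2| * (η * s) ≤ 1 / 16 * s := by
      have : |k2| * η ≤ k * η := mul_le_mul_of_nonneg_right (by linarith) hηpos.le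
      have := mul_le_mul_of_nonneg_right (this.trans hη1) g1.le
      linarith
    linarith

/-- **No bad small trapezoid at the corner.** -/
theorem Data.corner (D : Data α γ A p q h) (hc : CorG α γ p q) :
    ∃ r > 0, ∀ t u, 0 ≤ t → t < u → u ≤ r →
      ¬ (0 ≤ h (v3 α p q t u) ∧ h (v4 α p q t u) ≤ 0) := by
  obtain ⟨τ, hτ, k1, k2, htan, hosc, _, hcone⟩ := hc
  have S := D.S
  have H := D.H
  have hq := H.hq
  have hl := H.hl
  set P := α 0 with hP
  obtain ⟨δ, hδ, hL⟩ := D.lower hτ htan hcone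
  obtain ⟨ρ, hρ, hU⟩ := D.upper hτ htan hcone
  have ak1 := abs_nonneg k1
  have ak2 := abs_nonneg k2
  have ap := abs_nonneg p
  set l := 1 + 2 * p with hldef
  set σ := l - q * (k1 - k2) with hσ
  have hσpos : 0 < σ := by linarith
  set C1 := 2 * l * 0 + |k1| * (1 + 2 * |p|) + |k2| * (1 + 2 * |p|) with hC1
  have hC10 : 0 ≤ C1 := by positivity
  set C2 := 2 + C1 / σ with hC2
  have hC20 : 0 ≤ C2 := by positivity
  set C3 := 1 + (|p| + |k1| * q) * C2 + 2 * q + |k1| * (1 + 2 * |p|) with hC3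
  have hC30 : 0 < C3 := by positivity
  set η := 1 / (2 * C3) with hη
  have hηpos : 0 < η := by positivity
  have hη1 : C3 * η = 1 / 2 := by rw [hη]; field_simp
  obtain ⟨ρ1, hρ1, hT⟩ := htan η hηpos
  -- sizes
  have hcont : ∀ᶠ x : ℝ × ℝ in 𝓝 ((0 : ℝ), (0 : ℝ)), ‖Wc P τ (v4 α p q x.1 x.2)‖ < ρ := by
    have hc : Continuous (fun x : ℝ × ℝ => ‖Wc P τ (v4 α p q x.1 x.2)‖) :=
      ((continuous_Wc P τ).comp (continuous_v4 S.hα)).norm
    apply (hc.tendsto (0, 0)).eventually (gt_mem_nhds _)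
    show ‖Wc P τ (v4 α p q 0 0)‖ < ρ
    unfold Wc v4
    rw [hP, sub_self, mul_zero, add_zero, sub_self, zero_div, norm_zero]
    exact hρ
  obtain ⟨δ1, hδ1, hδ1'⟩ := Metric.eventually_nhds_iff.mp hcont
  refine ⟨min δ (min ρ1 (δ1 / 2)), by positivity, ?_⟩
  rintro t u ht htu hu ⟨h3, h4⟩
  have hu0 : 0 < u := by linarith
  have u1 : u ≤ δ := hu.trans (min_le_left _ _)
  have u2 : u ≤ ρ1 := hu.trans ((min_le_right _ _).trans (min_le_left _ _))
  have u3 : u ≤ δ1 / 2 := hu.trans ((min_le_right _ _).trans (min_le_right _ _))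
  have hn4 : ‖Wc P τ (v4 α p q t u)‖ ≤ ρ := by
    refine (hδ1' (y := (t, u)) ?_).le
    rw [Prod.dist_eq]
    apply max_lt
    · rw [Real.dist_eq, sub_zero, abs_of_nonneg ht]; linarith
    · rw [Real.dist_eq, sub_zero, abs_of_pos hu0]; linarith
  have K4 : k2 * (Wc P τ (v4 α p q t u)).im ≤ (Wc P τ (v4 α p q t u)).re := by
    by_contra hcon
    push Not at hcon
    have := hU _ hn4 hcon
    linarith
  have K3 : (Wc P τ (v3 α p q t u)).re ≤ k1 * (Wc P τ (v3 α p q t u)).im := by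
    by_contra hcon
    push Not at hcon
    have := hL t u ht htu u1 hcon
    linarith
  -- coordinates
  set a := Wc P τ (α t) with ha
  set b := Wc P τ (α u) with hb
  obtain ⟨a1, a2⟩ := Tan.parts (hT t ht (by linarith))
  obtain ⟨b1, b2⟩ := Tan.parts (hT u hu0.le u2)
  have hηt : η * t ≤ η * u := mul_le_mul_of_nonneg_left htu.le hηpos.le
  have a1' : |a.re - t| ≤ η * u := a1.trans hηt
  have a2' : |a.im| ≤ η * u := a2.trans hηt
  have A1 := abs_le.mp a1'
  have A2 := abs_le.mp a2'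
  have B1 := abs_le.mp b1
  have B2 := abs_le.mp b2
  have e3 : Wc P τ (v3 α p q t u) = b + ⟨p, q⟩ * (b - a) := Wc_v3 P τ t u
  have e4 : Wc P τ (v4 α p q t u) = a + ⟨-p, q⟩ * (b - a) := Wc_v4 P τ t u
  set x := b.re - a.re with hx
  set y := b.im - a.im with hy
  have r3 : (Wc P τ (v3 α p q t u)).re = b.re + (p * x - q * y) := by
    rw [e3, Complex.add_re, Complex.mul_re, Complex.sub_re, Complex.sub_im]
  have i3 : (Wc P τ (v3 α p q t u)).im = b.im + (p * y + q * x) := by
    rw [e3, Complex.add_im, Complex.mul_im, Complex.sub_re, Complex.sub_im]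
  have r4 : (Wc P τ (v4 α p q t u)).re = a.re + (-p * x - q * y) := by
    rw [e4, Complex.add_re, Complex.mul_re, Complex.sub_re, Complex.sub_im]
  have i4 : (Wc P τ (v4 α p q t u)).im = a.im + (-p * y + q * x) := by
    rw [e4, Complex.add_im, Complex.mul_im, Complex.sub_re, Complex.sub_im]
  have hyb : |y| ≤ 2 * (η * u) := by
    rw [hy, abs_le]; constructor <;> linarith
  have hpy : |p * y| ≤ |p| * (2 * (η * u)) := abs_mul_le le_rfl hyb
  have hpy' := abs_le.mp hpy
  have hqy : |q * y| ≤ q * (2 * (η * u)) := by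
    have := abs_mul_le (x := q) (y := y) (le_refl |q|) hyb
    rwa [abs_of_pos hq] at this
  have hqy' := abs_le.mp hqy
  rw [r3, i3] at K3
  rw [r4, i4] at K4
  -- the base is short
  have c1 : |k1 * (b.im + p * y)| ≤ |k1| * ((1 + 2 * |p|) * (η * u)) := by
    apply abs_mul_le le_rfl
    rw [abs_le]; constructor <;> linarith
  have c2 : |k2 * (a.im - p * y)| ≤ |k2| * ((1 + 2 * |p|) * (η * u)) := by
    apply abs_mul_le le_rfl
    rw [abs_le]; constructor <;> linarith
  have c1' := abs_le.mp c1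
  have c2' := abs_le.mp c2
  have j1 : σ * x ≤ C1 * (η * u) := by
    have : l * x ≤ q * (k1 - k2) * x + (k1 * (b.im + p * y) - k2 * (a.im - p * y)) := by
      have e5 : l * x = (b.re + (p * x - q * y)) - (a.re + (-p * x - q * y)) := by
        rw [hldef, hx]; ring
      rw [e5]
      linarith
    rw [hσ, hC1]
    linarith
  have j2 : x ≤ C1 / σ * (η * u) := by
    have e5 : C1 / σ * (η * u) = C1 * (η * u) / σ := by ring
    rw [e5, le_div_iff₀ hσpos]
    linarith
  have hηu : 0 < η * u := by positivity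
  have j3 : |x| ≤ C2 * (η * u) := by
    rw [abs_le]
    constructor
    · have : 0 ≤ C1 / σ * (η * u) := by positivity
      rw [hC2, hx]
      linarith
    · rw [hC2]; linarith
  have j4 : |p * x| ≤ |p| * (C2 * (η * u)) := abs_mul_le le_rfl j3
  have j5 : |k1 * (q * x)| ≤ |k1| * (q * (C2 * (η * u))) := by
    apply abs_mul_le le_rfl
    have := abs_mul_le (x := q) (y := x) (le_refl |q|) j3
    rwa [abs_of_pos hq] at this
  have j4' := abs_le.mp j4
  have j5' := abs_le.mp j5
  have j6 : u ≤ C3 * (η * u) := by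
    rw [hC3]
    linarith
  have j7 : C3 * (η * u) = 1 / 2 * u := by rw [← mul_assoc, hη1]
  linarith

/-- the leg at the corner starts outside -/
theorem Data.legNear (D : Data α γ A p q h) (hc : CorG α γ p q) :
    ∃ r > 0, ∀ u, 0 < u → u ≤ r → 0 < h (v4 α p q 0 u) := by
  obtain ⟨τ, hτ, k1, k2, htan, _, hpos, hcone⟩ := hc
  have S := D.S
  have H := D.H
  have hq := H.hq
  set P := α 0 with hP
  obtain ⟨ρ, hρ, hU⟩ := D.upper hτ htan hcone
  have ak2 := abs_nonneg k2
  have ap := abs_nonneg p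
  set s := q * k2 + p with hs
  set C := (|p| + q) + |k2| * (|p| + q) with hC
  have hC0 : 0 < C := by positivity
  set η := s / (2 * C) with hη
  have hηpos : 0 < η := by positivity
  have hη1 : C * η = s / 2 := by rw [hη]; field_simp
  obtain ⟨ρ1, hρ1, hT⟩ := htan η hηpos
  have hcont : ∀ᶠ u : ℝ in 𝓝 (0 : ℝ), ‖Wc P τ (v4 α p q 0 u)‖ < ρ := by
    have hc : Continuous (fun u : ℝ => ‖Wc P τ (v4 α p q 0 u)‖) := by
      have hα := S.hα
      apply Continuous.norm
      apply (continuous_Wc P τ).comp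
      unfold v4; fun_prop
    apply (hc.tendsto 0).eventually (gt_mem_nhds _)
    show ‖Wc P τ (v4 α p q 0 0)‖ < ρ
    unfold Wc v4
    rw [hP, sub_self, mul_zero, add_zero, sub_self, zero_div, norm_zero]
    exact hρ
  obtain ⟨δ1, hδ1, hδ1'⟩ := Metric.eventually_nhds_iff.mp hcont
  refine ⟨min ρ1 (δ1 / 2), by positivity, ?_⟩
  intro u hu0 hu
  have u1 : u ≤ ρ1 := hu.trans (min_le_left _ _)
  have u2 : u ≤ δ1 / 2 := hu.trans (min_le_right _ _)
  apply hU _ (hδ1' (by rw [Real.dist_eq, sub_zero, abs_of_pos hu0]; linarith)).le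
  set b := Wc P τ (α u) with hb
  obtain ⟨b1, b2⟩ := Tan.parts (hT u hu0.le u1)
  have e0 : Wc P τ (α 0) = 0 := by unfold Wc; rw [hP, sub_self, zero_div]
  have e4 : Wc P τ (v4 α p q 0 u) = ⟨-p, q⟩ * b := by
    rw [Wc_v4, e0, zero_add, sub_zero]
  rw [e4, Complex.mul_re, Complex.mul_im]
  show -p * b.re - q * b.im < k2 * (-p * b.im + q * b.re)
  have f1 : |(-p - k2 * q) * (b.re - u)| ≤ (|p| + |k2| * q) * (η * u) := by
    apply abs_mul_le _ b1
    refine (abs_sub _ _).trans ?_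
    rw [abs_neg, abs_mul, abs_of_pos hq]
  have f2 : |(-q + k2 * p) * b.im| ≤ (q + |k2| * |p|) * (η * u) := by
    apply abs_mul_le _ b2
    refine (abs_add_le _ _).trans ?_
    rw [abs_neg, abs_mul, abs_of_pos hq]
  have f1' := (abs_le.mp f1).2
  have f2' := (abs_le.mp f2).2
  have e5 : -p * b.re - q * b.im - k2 * (-p * b.im + q * b.re)
      = -(s * u) + ((-p - k2 * q) * (b.re - u) + (-q + k2 * p) * b.im) := by
    rw [hs]; ring
  have e6 : (|p| + |k2| * q) * (η * u) + (q + |k2| * |p|) * (η * u) = C * η * u := by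
    rw [hC]; ring
  rw [hη1] at e6
  have e7 : 0 < s * u := by positivity
  linarith

end Pool.Agent.GenTrap
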