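import Pool.Agent.Lib.MP_2fd4e2_co.Gen.Main
import Pool.Agent.Lib.MP_2fd4e2_co.Arc.Final

/-!
The final statement for a locally Lipschitz arc closed up by an arbitrary path.
-/

set_option autoImplicit false

namespace Pool.Agent.GenTrap

open Complex Set Filter Topology Pool.Agent.ArcTrap Pool.Agent.LipTrap

theorem shp_of_angle {φ l A : ℝ} (hφ : 0 < φ) (hφ' : φ < Real.pi) (hl : 0 < l)
    (hl' : 0 < 1 + 2 * l * Real.cos φ) (hA : 0 ≤ A) (hA1 : 2 * Real.arctan A < φ)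
    (hA2 : 2 * Real.arctan A < Real.pi - φ) : Shp A (l * Real.cos φ) (l * Real.sin φ) := by
  have hsin : 0 < Real.sin φ := Real.sin_pos_of_pos_of_lt_pi hφ hφ'
  refine ⟨hA, mul_pos hl hsin, by linarith, ?_⟩
  have key : |Real.cos φ| * (2 * A) < Real.sin φ * (1 - A ^ 2) := by
    rcases le_or_gt φ (Real.pi / 2) with h | h
    · have hcos : 0 ≤ Real.cos φ := Real.cos_nonneg_of_mem_Icc ⟨by linarith, h⟩
      have := trig_cond h hA hA (by linarith)
      rw [abs_of_nonneg hcos]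
      linarith
    · have hcos : Real.cos φ ≤ 0 := Real.cos_nonpos_of_pi_div_two_le_of_le h.le (by linarith)
      have := trig_cond (φ := Real.pi - φ) (by linarith) hA hA (by linarith)
      rw [Real.cos_pi_sub, Real.sin_pi_sub] at this
      rw [abs_of_nonpos hcos]
      linarith
  rw [abs_mul, abs_of_pos hl]
  have := mul_lt_mul_of_pos_left key hl
  linarith

theorem tan_of_deriv {α : ℝ → ℂ} {τ : ℂ} (hτ : τ ≠ 0)
    (h : HasDerivWithinAt α τ (Icc 0 1) 0) {β : ℝ → ℂ} (hβ : ∀ t ∈ Icc (0 : ℝ) 1, β t = α t) :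
    Tan β τ := by
  intro η hη
  have hτn : 0 < ‖τ‖ := norm_pos_iff.mpr hτ
  rw [hasDerivWithinAt_iff_isLittleO, Asymptotics.isLittleO_iff] at h
  have h1 := h (show 0 < η * ‖τ‖ by positivity)
  obtain ⟨ε, hε, h2⟩ := Metric.mem_nhdsWithin_iff.mp h1
  refine ⟨min (ε / 2) 1, by positivity, ?_⟩
  intro t ht1 ht2
  have h3 := min_le_left (ε / 2) 1
  have h4 := min_le_right (ε / 2) 1
  have htI : t ∈ Icc (0 : ℝ) 1 := ⟨ht1, by linarith⟩
  have h5 : ‖α t - α 0 - (t - 0) • τ‖ ≤ η * ‖τ‖ * ‖t - 0‖ := h2 ⟨by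
    rw [Metric.mem_ball, Real.dist_eq, sub_zero, abs_of_nonneg ht1]; linarith, htI⟩
  rw [sub_zero, Real.norm_eq_abs, abs_of_nonneg ht1] at h5
  rw [hβ t htI, hβ 0 ⟨le_rfl, zero_le_one⟩]
  have e : Wc (α 0) τ (α t) - (t : ℂ) = (α t - α 0 - t • τ) / τ := by
    unfold Wc
    rw [Complex.real_smul]
    field_simp
  rw [e, norm_div, div_le_iff₀ hτn]
  linarith

theorem tan_of_deriv' {α : ℝ → ℂ} {τ : ℂ} (hτ : τ ≠ 0)
    (h : HasDerivWithinAt α τ (Icc 0 1) 1) {β : ℝ → ℂ} (hβ : ∀ t ∈ Icc (0 : ℝ) 1, β t = α t) :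
    Tan (mir β) ((starRingEnd ℂ) τ) := by
  intro η hη
  have hτn : 0 < ‖τ‖ := norm_pos_iff.mpr hτ
  rw [hasDerivWithinAt_iff_isLittleO, Asymptotics.isLittleO_iff] at h
  have h1 := h (show 0 < η * ‖τ‖ by positivity)
  obtain ⟨ε, hε, h2⟩ := Metric.mem_nhdsWithin_iff.mp h1
  refine ⟨min (ε / 2) 1, by positivity, ?_⟩
  intro t ht1 ht2
  have h3 := min_le_left (ε / 2) 1
  have h4 := min_le_right (ε / 2) 1
  have htI : 1 - t ∈ Icc (0 : ℝ) 1 := ⟨by linarith, by linarith⟩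
  have h5 : ‖α (1 - t) - α 1 - (1 - t - 1) • τ‖ ≤ η * ‖τ‖ * ‖1 - t - 1‖ := h2 ⟨by
    rw [Metric.mem_ball, Real.dist_eq, show 1 - t - 1 = -t by ring, abs_neg, abs_of_nonneg ht1]
    linarith, htI⟩
  rw [show 1 - t - 1 = -t by ring, Real.norm_eq_abs, abs_neg, abs_of_nonneg ht1] at h5
  unfold mir
  rw [sub_zero, hβ _ htI, hβ 1 ⟨zero_le_one, le_rfl⟩]
  have e : Wc (mi (α 1)) ((starRingEnd ℂ) τ) (mi (α (1 - t))) - (t : ℂ)
      = -(starRingEnd ℂ) ((α (1 - t) - α 1 - (-t) • τ) / τ) := by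
    unfold Wc mi
    rw [Complex.real_smul, map_div₀, map_sub, map_sub, map_mul, Complex.conj_ofReal]
    have hτ' : (starRingEnd ℂ) τ ≠ 0 := by simpa using hτ
    field_simp
    push_cast
    ring
  rw [e, norm_neg, RCLike.norm_conj, norm_div, div_le_iff₀ hτn]
  linarith

theorem cone_of_sector {α1 α2 : ℝ} (h1 : 0 < α1) (h2 : α2 < Real.pi) {β γ : ℝ → ℂ} {τ : ℂ}
    (hτ : τ ≠ 0)
    (h : ∀ᶠ s in 𝓝[>] (0 : ℝ), ∃ ρ : ℝ, 0 < ρ ∧ ∃ x ∈ Icc α1 α2,
      γ s = β 0 + ρ * exp (x * I) * τ) : ConeG β γ τ (Real.cot α1) (Real.cot α2) := by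
  filter_upwards [h] with s hs
  obtain ⟨ρ, hρ, x, hx, e⟩ := hs
  have e1 : Wc (β 0) τ (γ s) = ⟨ρ * Real.cos x, ρ * Real.sin x⟩ := by
    have : Wc (β 0) τ (γ s) = ρ * exp (x * I) := by
      rw [e]; unfold Wc; field_simp; ring
    rw [this, kap]
  have h3 := sector (m := 0) hρ h1 h2 hx (x := ρ * Real.cos x) (y := ρ * Real.sin x)
    (by ring) (by ring)
  simp only [zero_mul, sub_zero, add_zero] at h3
  rw [e1]
  exact h3

theorem inscribed_general (φ l : ℝ) (hφ : 0 < φ) (hφ' : φ < Real.pi) (hl : 0 < l)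
    (hl' : 0 < 1 + 2 * l * Real.cos φ) (A : ℝ) (hA0 : 0 ≤ A) (hA1 : 2 * Real.arctan A < φ)
    (hA2 : 2 * Real.arctan A < Real.pi - φ)
    (G : ℝ → ℂ) (hG : ContinuousOn G (Icc 0 1)) (hinj : InjOn G (Icc 0 1))
    (hloc : ∀ t₀ ∈ Icc (0 : ℝ) 1, ∃ e : ℂ, e ≠ 0 ∧ ∃ ε > 0, ∀ t ∈ Icc (0 : ℝ) 1,
      ∀ u ∈ Icc (0 : ℝ) 1, |t - t₀| < ε → |u - t₀| < ε → t < u →
      0 < ((G u - G t) / e).re ∧ |((G u - G t) / e).im| ≤ A * ((G u - G t) / e).re)
    (m n : ℂ) (hm0 : m ≠ 0) (hn0 : n ≠ 0) (hm : HasDerivWithinAt G m (Icc 0 1) 0)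
    (hn : HasDerivWithinAt G n (Icc 0 1) 1)
    (g : ℝ → ℂ) (hg : ContinuousOn g (Icc 0 1)) (h0 : g 0 = G 0) (h1 : g 1 = G 1)
    (hav : ∀ s ∈ Ioo (0 : ℝ) 1, ∀ t ∈ Icc (0 : ℝ) 1, g s ≠ G t)
    (hlegP : ∀ t ∈ Ioc (0 : ℝ) 1,
      G 0 - l * exp (-(φ * I)) * (G t - G 0) ∉ G '' Icc 0 1 ∪ g '' Icc 0 1)
    (hlegQ : ∀ t ∈ Ico (0 : ℝ) 1,
      G 1 - l * exp (φ * I) * (G t - G 1) ∉ G '' Icc 0 1 ∪ g '' Icc 0 1)
    (α₁ α₂ β₁ β₂ : ℝ) (hα₁ : 0 < α₁) (hα₂ : α₂ < Real.pi - φ)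
    (hα : Real.cot α₁ - Real.cot α₂ < (1 + 2 * l * Real.cos φ) / (l * Real.sin φ))
    (hβ₁ : 0 < β₁) (hβ₂ : β₂ < Real.pi - φ)
    (hβ : Real.cot β₁ - Real.cot β₂ < (1 + 2 * l * Real.cos φ) / (l * Real.sin φ))
    (hP : ∀ᶠ s in 𝓝[>] (0 : ℝ), ∃ ρ : ℝ, 0 < ρ ∧ ∃ x ∈ Icc α₁ α₂,
      g s = G 0 + ρ * exp (x * I) * m)
    (hQ : ∀ᶠ s in 𝓝[<] (1 : ℝ), ∃ ρ : ℝ, 0 < ρ ∧ ∃ x ∈ Icc β₁ β₂,
      g s = G 1 - ρ * exp (-(x * I)) * n) :
    ∃ α β : ℂ, α ≠ 0 ∧ β ∈ G '' Icc 0 1 ∧ α + β ∈ G '' Icc 0 1 ∧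
      α * (1 + l * exp (φ * I)) + β ∈ G '' Icc 0 1 ∪ g '' Icc 0 1 ∧
      α * (-(l * exp (-(φ * I)))) + β ∈ G '' Icc 0 1 ∪ g '' Icc 0 1 := by
  have hsin : 0 < Real.sin φ := Real.sin_pos_of_pos_of_lt_pi hφ hφ'
  have H := shp_of_angle hφ hφ' hl hl' hA0 hA1 hA2
  set p := l * Real.cos φ with hp
  set q := l * Real.sin φ with hq
  set α : ℝ → ℂ := fun t => G (c01 t) with hαdef
  set γ : ℝ → ℂ := fun t => g (c01 t) with hγdef
  have hαI : ∀ t ∈ Icc (0 : ℝ) 1, α t = G t := fun t ht => by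
    simp only [hαdef]; rw [c01_of_mem ht]
  have hγI : ∀ t ∈ Icc (0 : ℝ) 1, γ t = g t := fun t ht => by
    simp only [hγdef]; rw [c01_of_mem ht]
  have i0 : (0 : ℝ) ∈ Icc (0 : ℝ) 1 := ⟨le_rfl, zero_le_one⟩
  have i1 : (1 : ℝ) ∈ Icc (0 : ℝ) 1 := ⟨zero_le_one, le_rfl⟩
  have S : Curve α A γ :=
    { hA := hA0
      hα := hG.comp_continuous continuous_c01 c01_mem
      inj := by
        intro t ht u hu htu
        rw [hαI t ht, hαI u hu] at htu
        exact hinj ht hu htu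
      loc := by
        intro t0 ht0
        obtain ⟨e, he, ε, hε, hh⟩ := hloc t0 ht0
        refine ⟨e, he, ε, hε, ?_⟩
        intro t ht u hu k1 k2 k3
        rw [hαI t ht, hαI u hu]
        exact hh t ht u hu k1 k2 k3
      hγ := hg.comp_continuous continuous_c01 c01_mem
      g0 := by rw [hγI 0 i0, hαI 0 i0, h0]
      g1 := by rw [hγI 1 i1, hαI 1 i1, h1]
      av := by
        intro s hs t ht
        rw [hγI s ⟨hs.1.le, hs.2.le⟩, hαI t ht]
        exact hav s hs t ht }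
  have hJ : Jc α γ = G '' Icc 0 1 ∪ g '' Icc 0 1 := by
    unfold Jc
    congr 1
    · exact image_congr hαI
    · exact image_congr hγI
  obtain ⟨h, hh, hz, hsm⟩ := S.exists_h H
  have D : Data α γ A p q h :=
    { S := S
      H := H
      hh := hh
      hz := hz
      small := hsm
      legP := by
        intro u hu
        have e : v4 α p q 0 u = G 0 - l * exp (-(φ * I)) * (G u - G 0) := by
          unfold v4
          rw [hαI 0 i0, hαI u ⟨hu.1.le, hu.2⟩, kap']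
          apply Complex.ext
          · simp only [Complex.add_re, Complex.mul_re, Complex.sub_re, Complex.sub_im]
            rw [← hp, ← hq]; ring
          · simp only [Complex.add_im, Complex.mul_im, Complex.sub_re, Complex.sub_im]
            rw [← hp, ← hq]; ring
        rw [e, hJ]
        exact hlegP u hu
      legQ := by
        intro t ht
        have e : v3 α p q t 1 = G 1 - l * exp (φ * I) * (G t - G 1) := by
          unfold v3
          rw [hαI 1 i1, hαI t ⟨ht.1, ht.2.le⟩, kap]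
          apply Complex.ext
          · simp only [Complex.add_re, Complex.mul_re, Complex.sub_re, Complex.sub_im]
            rw [← hp, ← hq]; ring
          · simp only [Complex.add_im, Complex.mul_im, Complex.sub_re, Complex.sub_im]
            rw [← hp, ← hq]; ring
        rw [e, hJ]
        exact hlegQ t ht }
  have hα12 : α₁ ≤ α₂ := by
    obtain ⟨s, ρ, _, x, hx, _⟩ := hP.exists
    exact hx.1.trans hx.2
  have hβ12 : β₁ ≤ β₂ := by
    obtain ⟨s, ρ, _, x, hx, _⟩ := hQ.exists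
    exact hx.1.trans hx.2
  have cP : CorG α γ p q := by
    obtain ⟨c1, c2⟩ := cot_conditions (α1 := α₁) hφ hl hsin (by linarith) hα₂ hα
    refine ⟨m, hm0, Real.cot α₁, Real.cot α₂, tan_of_deriv hm0 hm hαI, c1, c2, ?_⟩
    apply cone_of_sector hα₁ (by linarith) hm0
    filter_upwards [hP, Ioo_mem_nhdsGT (zero_lt_one (α := ℝ))] with s hs hs'
    rw [hγI s ⟨hs'.1.le, hs'.2.le⟩, hαI 0 i0]
    exact hs
  have cQ : CorG (mir α) (mir γ) p q := by
    obtain ⟨c1, c2⟩ := cot_conditions (α1 := β₁) hφ hl hsin (by linarith) hβ₂ hβ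
    refine ⟨(starRingEnd ℂ) n, by simpa using hn0, Real.cot β₁, Real.cot β₂,
      tan_of_deriv' hn0 hn hαI, c1, c2, ?_⟩
    apply cone_of_sector hβ₁ (by linarith) (by simpa using hn0)
    have ht : Tendsto (fun t : ℝ => 1 - t) (𝓝[>] 0) (𝓝[<] 1) := by
      rw [tendsto_nhdsWithin_iff]
      constructor
      · have hc : Continuous (fun t : ℝ => 1 - t) := by fun_prop
        have := (hc.tendsto 0).mono_left (nhdsWithin_le_nhds (s := Ioi (0 : ℝ)))
        simpa using this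
      · filter_upwards [self_mem_nhdsWithin] with t ht
        have : 0 < t := ht
        show 1 - t < 1
        linarith
    filter_upwards [ht.eventually hQ, Ioo_mem_nhdsGT (zero_lt_one (α := ℝ))] with s hs hs'
    obtain ⟨ρ, hρ, x, hx, e⟩ := hs
    refine ⟨ρ, hρ, x, hx, ?_⟩
    unfold mir
    rw [hγI (1 - s) ⟨by linarith [hs'.2], by linarith [hs'.1]⟩, sub_zero, hαI 1 i1, e]
    unfold mi
    rw [map_sub, map_mul, map_mul, Complex.conj_ofReal, ← Complex.exp_conj, map_neg, map_mul,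
      Complex.conj_ofReal, Complex.conj_I]
    rw [show -((x : ℂ) * -I) = x * I by ring]
    ring
  obtain ⟨t, u, ht0, htu, hu1, k3, k4⟩ := D.main cP cQ
  have htI : t ∈ Icc (0 : ℝ) 1 := ⟨ht0, by linarith⟩
  have huI : u ∈ Icc (0 : ℝ) 1 := ⟨by linarith, hu1⟩
  rw [hJ] at k3 k4
  refine ⟨G u - G t, G t, ?_, ⟨t, htI, rfl⟩, ⟨u, huI, by ring⟩, ?_, ?_⟩
  · intro h
    have := hinj huI htI (sub_eq_zero.mp h)
    linarith
  · have e : (G u - G t) * (1 + l * exp (φ * I)) + G t = v3 α p q t u := by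
      unfold v3
      rw [hαI t htI, hαI u huI, kap]
      rw [← hp, ← hq]
      ring
    rw [e]; exact k3
  · have e : (G u - G t) * (-(l * exp (-(φ * I)))) + G t = v4 α p q t u := by
      unfold v4
      rw [hαI t htI, hαI u huI, kap']
      rw [← hp, ← hq]
      have : (⟨-p, q⟩ : ℂ) = -⟨p, -q⟩ := by apply Complex.ext <;> simp
      rw [this]
      ring
    rw [e]; exact k4

end Pool.Agent.GenTrap
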