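import Pool.Agent.Lib.MP_2fd4e2_co.Gen.Base

/-!
Points close to a locally Lipschitz arc, on its left and on its right.
-/

set_option autoImplicit false

namespace Pool.Agent.GenTrap

open Complex Set Filter Topology Pool.Agent.ArcTrap

/-- the third vertex -/
def v3 (α : ℝ → ℂ) (p q t u : ℝ) : ℂ := α u + ⟨p, q⟩ * (α u - α t)

/-- the fourth vertex -/
def v4 (α : ℝ → ℂ) (p q t u : ℝ) : ℂ := α t + ⟨-p, q⟩ * (α u - α t)

/-- the third vertex on the other side -/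
def w3 (α : ℝ → ℂ) (p q t u : ℝ) : ℂ := α u - ⟨p, q⟩ * (α u - α t)

/-- the fourth vertex on the other side -/
def w4 (α : ℝ → ℂ) (p q t u : ℝ) : ℂ := α t - ⟨-p, q⟩ * (α u - α t)

/-- the closed curve -/
def Jc (α γ : ℝ → ℂ) : Set ℂ := α '' Icc 0 1 ∪ γ '' Icc 0 1

/-- the cone condition near `t0` -/
def ConeAt (α : ℝ → ℂ) (A t0 : ℝ) (e : ℂ) (ε : ℝ) : Prop :=
  ∀ t ∈ Icc (0 : ℝ) 1, ∀ u ∈ Icc (0 : ℝ) 1, |t - t0| < ε → |u - t0| < ε → t < u →
    Fwd A ((α u - α t) / e)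

structure Curve (α : ℝ → ℂ) (A : ℝ) (γ : ℝ → ℂ) : Prop where
  hA : 0 ≤ A
  hα : Continuous α
  inj : InjOn α (Icc 0 1)
  loc : ∀ t0 ∈ Icc (0 : ℝ) 1, ∃ e : ℂ, e ≠ 0 ∧ ∃ ε > 0, ConeAt α A t0 e ε
  hγ : Continuous γ
  g0 : γ 0 = α 0
  g1 : γ 1 = α 1
  av : ∀ s ∈ Ioo (0 : ℝ) 1, ∀ t ∈ Icc (0 : ℝ) 1, γ s ≠ α t

variable {α γ : ℝ → ℂ} {A : ℝ}

theorem Curve.notMem_γ (S : Curve α A γ) {t0 : ℝ} (ht0 : t0 ∈ Ioo (0 : ℝ) 1) :
    ∀ s ∈ Icc (0 : ℝ) 1, γ s ≠ α t0 := by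
  intro s hs heq
  rcases eq_or_lt_of_le hs.1 with h | h
  · rw [← h, S.g0] at heq
    have := S.inj ⟨le_rfl, zero_le_one⟩ ⟨ht0.1.le, ht0.2.le⟩ heq
    linarith [ht0.1]
  · rcases eq_or_lt_of_le hs.2 with h' | h'
    · rw [h', S.g1] at heq
      have := S.inj ⟨zero_le_one, le_rfl⟩ ⟨ht0.1.le, ht0.2.le⟩ heq
      linarith [ht0.2]
    · exact S.av s ⟨h, h'⟩ t0 ⟨ht0.1.le, ht0.2.le⟩ heq

theorem chord_not_side {t0 ε : ℝ} {e : ℂ} (hcone : ConeAt α A t0 e ε) {s u : ℝ}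
    (hs : s ∈ Icc (0 : ℝ) 1) (hu : u ∈ Icc (0 : ℝ) 1) (hs' : |s - t0| < ε) (hu' : |u - t0| < ε)
    {w : ℂ} (hw : α s = α u + w) (hside : Lft A (w / e) ∨ Lft A (-(w / e))) : False := by
  have hw' : w = α s - α u := by rw [hw]; ring
  rcases lt_trichotomy s u with h | h | h
  · have hF := hcone s hs u hu hs' hu' h
    have e1 : w / e = -((α u - α s) / e) := by rw [hw', ← neg_div, neg_sub]
    rcases hside with h1 | h1
    · exact h1.ne_fwd (v := w / e) (Or.inr (by rw [e1, neg_neg]; exact hF)) rfl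
    · rw [e1, neg_neg] at h1
      exact h1.ne_fwd (Or.inl hF) rfl
  · rw [h, sub_self] at hw'
    rw [hw', zero_div, neg_zero] at hside
    rcases hside with h1 | h1
    · exact h1.ne_zero rfl
    · exact h1.ne_zero rfl
  · have hF := hcone u hu s hs hu' hs' h
    rw [← hw'] at hF
    rcases hside with h1 | h1
    · exact h1.ne_fwd (Or.inl hF) rfl
    · exact h1.ne_fwd (v := -(w / e)) (Or.inr (by rw [neg_neg]; exact hF)) rfl

theorem Curve.avoid (S : Curve α A γ) {t0 : ℝ} (ht0 : t0 ∈ Ioo (0 : ℝ) 1) {e : ℂ} {ε : ℝ}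
    (hε : 0 < ε) (hcone : ConeAt α A t0 e ε) :
    ∃ ε' > 0, ∃ ρ > 0, ε' ≤ ε ∧ (∀ u, |u - t0| < ε' → u ∈ Ioo (0 : ℝ) 1) ∧
      ∀ u, |u - t0| < ε' → ∀ w : ℂ, ‖w‖ < ρ → (Lft A (w / e) ∨ Lft A (-(w / e))) →
        α u + w ∉ Jc α γ := by
  have hK : IsCompact (α '' (Icc 0 1 ∩ {s | ε ≤ |s - t0|}) ∪ γ '' Icc 0 1) := by
    apply IsCompact.union
    · apply IsCompact.image _ S.hα
      apply isCompact_Icc.inter_right
      exact isClosed_le continuous_const (continuous_abs.comp (continuous_id.sub continuous_const))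
    · exact isCompact_Icc.image S.hγ
  have hn : α t0 ∈ (α '' (Icc 0 1 ∩ {s | ε ≤ |s - t0|}) ∪ γ '' Icc 0 1)ᶜ := by
    rintro (⟨s, ⟨hs, hs'⟩, heq⟩ | ⟨s, hs, heq⟩)
    · have h1 := S.inj hs ⟨ht0.1.le, ht0.2.le⟩ heq
      have h2 : ε ≤ |s - t0| := hs'
      rw [h1, sub_self, abs_zero] at h2
      linarith
    · exact S.notMem_γ ht0 s hs heq
  obtain ⟨ρ, hρ, hball⟩ := Metric.isOpen_iff.mp hK.isClosed.isOpen_compl _ hn
  obtain ⟨δ, hδ, hcont⟩ := Metric.continuous_iff.mp S.hα t0 (ρ / 2) (by positivity)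
  have h01 : 0 < t0 := ht0.1
  have h02 : 0 < 1 - t0 := by linarith [ht0.2]
  refine ⟨min ε (min δ (min t0 (1 - t0))), by positivity, ρ / 2, by positivity, min_le_left _ _,
    ?_, ?_⟩
  · intro u hu
    have h1 : |u - t0| < t0 := hu.trans_le
      ((min_le_right _ _).trans ((min_le_right _ _).trans (min_le_left _ _)))
    have h2 : |u - t0| < 1 - t0 := hu.trans_le
      ((min_le_right _ _).trans ((min_le_right _ _).trans (min_le_right _ _)))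
    rw [abs_lt] at h1 h2
    constructor <;> linarith [h1.1, h2.2]
  · intro u hu w hw hside hJ
    have hu1 : |u - t0| < ε := hu.trans_le (min_le_left _ _)
    have hu2 : |u - t0| < δ := hu.trans_le ((min_le_right _ _).trans (min_le_left _ _))
    have h1 : |u - t0| < t0 := hu.trans_le
      ((min_le_right _ _).trans ((min_le_right _ _).trans (min_le_left _ _)))
    have h2 : |u - t0| < 1 - t0 := hu.trans_le
      ((min_le_right _ _).trans ((min_le_right _ _).trans (min_le_right _ _)))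
    rw [abs_lt] at h1 h2
    have huI : u ∈ Icc (0 : ℝ) 1 := ⟨by linarith [h1.1], by linarith [h2.2]⟩
    have h3 := hcont u (by rw [Real.dist_eq]; exact hu2)
    have hb : α u + w ∈ Metric.ball (α t0) ρ := by
      rw [Metric.mem_ball]
      calc dist (α u + w) (α t0) ≤ dist (α u + w) (α u) + dist (α u) (α t0) := dist_triangle _ _ _
        _ = ‖w‖ + dist (α u) (α t0) := by rw [dist_eq_norm, add_sub_cancel_left]
        _ < ρ := by linarith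
    have hnot := hball hb
    rcases hJ with ⟨s, hs, heq⟩ | ⟨s, hs, heq⟩
    · have hs' : |s - t0| < ε := by
        by_contra hcon
        push Not at hcon
        exact hnot (Or.inl ⟨s, ⟨hs, hcon⟩, heq⟩)
      exact chord_not_side hcone hs huI hs' hu1 heq hside
    · exact hnot (Or.inr ⟨s, hs, heq⟩)

/-- the left collar is preconnected -/
theorem collar_pre (hα : Continuous α) (hA : 0 ≤ A) (t0 ε' ρ : ℝ) (e : ℂ) :
    IsPreconnected {z : ℂ | ∃ s w, |s - t0| < ε' ∧ ‖w‖ < ρ ∧ Lft A (w / e) ∧ z = α s + w} ∧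
    IsPreconnected {z : ℂ | ∃ s w, |s - t0| < ε' ∧ ‖w‖ < ρ ∧ Lft A (w / e) ∧ z = α s - w} := by
  have hconv : Convex ℝ ((Metric.ball t0 ε') ×ˢ
      ({w : ℂ | ‖w‖ < ρ} ∩ {w : ℂ | Lft A (w / e)})) := by
    apply (convex_ball t0 ε').prod
    apply Convex.inter
    · have : {w : ℂ | ‖w‖ < ρ} = Metric.ball 0 ρ := by
        ext w; simp
      rw [this]
      exact convex_ball _ _
    · intro x hx y hy s t hs ht hst
      have := lft_convex A hA (show x / e ∈ {v | Lft A v} from hx)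
        (show y / e ∈ {v | Lft A v} from hy) hs ht hst
      show Lft A ((s • x + t • y) / e)
      have e1 : (s • x + t • y) / e = s • (x / e) + t • (y / e) := by
        simp only [Complex.real_smul]; ring
      rw [e1]
      exact this
  constructor
  · have h1 : {z : ℂ | ∃ s w, |s - t0| < ε' ∧ ‖w‖ < ρ ∧ Lft A (w / e) ∧ z = α s + w}
        = (fun x : ℝ × ℂ => α x.1 + x.2) '' ((Metric.ball t0 ε') ×ˢ
      ({w : ℂ | ‖w‖ < ρ} ∩ {w : ℂ | Lft A (w / e)})) := by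
      ext z
      constructor
      · rintro ⟨s, w, h1, h2, h3, rfl⟩
        exact ⟨(s, w), ⟨by rw [Metric.mem_ball, Real.dist_eq]; exact h1, h2, h3⟩, rfl⟩
      · rintro ⟨⟨s, w⟩, ⟨h1, h2, h3⟩, rfl⟩
        rw [Metric.mem_ball, Real.dist_eq] at h1
        exact ⟨s, w, h1, h2, h3, rfl⟩
    rw [h1]
    apply hconv.isPreconnected.image
    exact ((hα.comp continuous_fst).add continuous_snd).continuousOn
  · have h1 : {z : ℂ | ∃ s w, |s - t0| < ε' ∧ ‖w‖ < ρ ∧ Lft A (w / e) ∧ z = α s - w}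
        = (fun x : ℝ × ℂ => α x.1 - x.2) '' ((Metric.ball t0 ε') ×ˢ
      ({w : ℂ | ‖w‖ < ρ} ∩ {w : ℂ | Lft A (w / e)})) := by
      ext z
      constructor
      · rintro ⟨s, w, h1, h2, h3, rfl⟩
        exact ⟨(s, w), ⟨by rw [Metric.mem_ball, Real.dist_eq]; exact h1, h2, h3⟩, rfl⟩
      · rintro ⟨⟨s, w⟩, ⟨h1, h2, h3⟩, rfl⟩
        rw [Metric.mem_ball, Real.dist_eq] at h1
        exact ⟨s, w, h1, h2, h3, rfl⟩
    rw [h1]
    apply hconv.isPreconnected.image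
    exact ((hα.comp continuous_fst).sub continuous_snd).continuousOn

variable {p q : ℝ}

/-- close points: the four vertices are close, on the left or on the right -/
theorem Curve.near (S : Curve α A γ) (H : Shp A p q) {t0 : ℝ} {e : ℂ} {ε : ℝ}
    (hcone : ConeAt α A t0 e ε) {ε' ρ : ℝ} (hε' : 0 < ε') (hρ : 0 < ρ)
    (hεε : ε' ≤ ε) (hin : ∀ u, |u - t0| < ε' → u ∈ Ioo (0 : ℝ) 1) :
    ∀ᶠ x : ℝ × ℝ in 𝓝 (t0, t0), x.1 < x.2 → |x.1 - t0| < ε' ∧ |x.2 - t0| < ε' ∧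
      ‖(⟨p, q⟩ : ℂ) * (α x.2 - α x.1)‖ < ρ ∧ ‖(⟨-p, q⟩ : ℂ) * (α x.2 - α x.1)‖ < ρ ∧
      Lft A ((⟨p, q⟩ : ℂ) * (α x.2 - α x.1) / e) ∧
      Lft A ((⟨-p, q⟩ : ℂ) * (α x.2 - α x.1) / e) := by
  have hc1 : Continuous (fun x : ℝ × ℝ => |x.1 - t0|) := by fun_prop
  have hc2 : Continuous (fun x : ℝ × ℝ => |x.2 - t0|) := by fun_prop
  have hα := S.hα
  have hc3 : Continuous (fun x : ℝ × ℝ => ‖(⟨p, q⟩ : ℂ) * (α x.2 - α x.1)‖) := by fun_prop
  have hc4 : Continuous (fun x : ℝ × ℝ => ‖(⟨-p, q⟩ : ℂ) * (α x.2 - α x.1)‖) := by fun_prop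
  have g1 : ∀ᶠ x : ℝ × ℝ in 𝓝 (t0, t0), |x.1 - t0| < ε' :=
    (hc1.tendsto (t0, t0)).eventually (gt_mem_nhds (by simpa using hε'))
  have g2 : ∀ᶠ x : ℝ × ℝ in 𝓝 (t0, t0), |x.2 - t0| < ε' :=
    (hc2.tendsto (t0, t0)).eventually (gt_mem_nhds (by simpa using hε'))
  have g3 : ∀ᶠ x : ℝ × ℝ in 𝓝 (t0, t0), ‖(⟨p, q⟩ : ℂ) * (α x.2 - α x.1)‖ < ρ :=
    (hc3.tendsto (t0, t0)).eventually (gt_mem_nhds (by simpa using hρ))
  have g4 : ∀ᶠ x : ℝ × ℝ in 𝓝 (t0, t0), ‖(⟨-p, q⟩ : ℂ) * (α x.2 - α x.1)‖ < ρ :=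
    (hc4.tendsto (t0, t0)).eventually (gt_mem_nhds (by simpa using hρ))
  filter_upwards [g1, g2, g3, g4] with x h1 h2 h3 h4 hlt
  have k1 := hin _ h1
  have k2 := hin _ h2
  have hF := hcone x.1 ⟨k1.1.le, k1.2.le⟩ x.2 ⟨k2.1.le, k2.2.le⟩ (h1.trans_le hεε)
    (h2.trans_le hεε) hlt
  refine ⟨h1, h2, h3, h4, ?_, ?_⟩
  · rw [mul_div_assoc]; exact H.lft3 hF
  · rw [mul_div_assoc]; exact H.lft4 hF

theorem Curve.small_avoid (S : Curve α A γ) (H : Shp A p q) {t0 : ℝ}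
    (ht0 : t0 ∈ Ioo (0 : ℝ) 1) :
    ∀ᶠ x : ℝ × ℝ in 𝓝 (t0, t0), x.1 < x.2 → v3 α p q x.1 x.2 ∉ Jc α γ ∧
      v4 α p q x.1 x.2 ∉ Jc α γ ∧ w3 α p q x.1 x.2 ∉ Jc α γ ∧ w4 α p q x.1 x.2 ∉ Jc α γ := by
  obtain ⟨e, he, ε, hε, hcone⟩ := S.loc t0 ⟨ht0.1.le, ht0.2.le⟩
  obtain ⟨ε', hε', ρ, hρ, hεε, hin, hav⟩ := S.avoid ht0 hε hcone
  filter_upwards [S.near H hcone hε' hρ hεε hin] with x hx hlt
  obtain ⟨h1, h2, h3, h4, h5, h6⟩ := hx hlt
  refine ⟨?_, ?_, ?_, ?_⟩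
  · exact hav _ h2 _ h3 (Or.inl h5)
  · exact hav _ h1 _ h4 (Or.inl h6)
  · have := hav _ h2 (-((⟨p, q⟩ : ℂ) * (α x.2 - α x.1))) (by rw [norm_neg]; exact h3)
      (Or.inr (by rw [neg_div, neg_neg]; exact h5))
    rwa [← sub_eq_add_neg] at this
  · have := hav _ h1 (-((⟨-p, q⟩ : ℂ) * (α x.2 - α x.1))) (by rw [norm_neg]; exact h4)
      (Or.inr (by rw [neg_div, neg_neg]; exact h6))
    rwa [← sub_eq_add_neg] at this

/-- the signs of the four vertices of small trapezoids near a point -/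
theorem Curve.small_base (S : Curve α A γ) (H : Shp A p q) {h : ℂ → ℝ} (hh : Continuous h)
    (hz : ∀ z, h z = 0 → z ∈ Jc α γ) {t0 : ℝ}
    (ht0 : t0 ∈ Ioo (0 : ℝ) 1) {e : ℂ} {ε : ℝ} (hε : 0 < ε) (hcone : ConeAt α A t0 e ε)
    (hsgn : ∀ᶠ y : ℝ in 𝓝[>] (0 : ℝ), h (α t0 + (y : ℂ) * I * e) < 0 ∧
      0 < h (α t0 - (y : ℂ) * I * e)) :
    ∀ᶠ x : ℝ × ℝ in 𝓝 (t0, t0), x.1 < x.2 → h (v3 α p q x.1 x.2) < 0 ∧
      h (v4 α p q x.1 x.2) < 0 ∧ 0 < h (w3 α p q x.1 x.2) ∧ 0 < h (w4 α p q x.1 x.2) := by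
  have he : e ≠ 0 := by
    rintro rfl
    obtain ⟨y, hy1, hy2⟩ := hsgn.exists
    simp only [mul_zero, add_zero, sub_zero] at hy1 hy2
    linarith
  obtain ⟨ε', hε', ρ, hρ, hεε, hin, hav⟩ := S.avoid ht0 hε hcone
  obtain ⟨c1, c2⟩ := collar_pre S.hα S.hA t0 ε' ρ e
  -- a base point
  have hsm : ∀ᶠ y : ℝ in 𝓝[>] (0 : ℝ), ‖(y : ℂ) * I * e‖ < ρ := by
    have hc : Continuous (fun y : ℝ => ‖(y : ℂ) * I * e‖) := by fun_prop
    have := (hc.tendsto 0).mono_left (nhdsWithin_le_nhds (s := Ioi (0 : ℝ)))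
    exact this.eventually (gt_mem_nhds (by simpa using hρ))
  obtain ⟨y, ⟨⟨hy1, hy2⟩, hy3⟩, hy4⟩ := ((hsgn.and hsm).and self_mem_nhdsWithin).exists
  have hy0 : 0 < y := hy4
  have hyL : Lft A ((y : ℂ) * I * e / e) := by
    rw [mul_div_assoc, div_self he, mul_one]
    unfold Lft
    simp [hy0]
  filter_upwards [S.near H hcone hε' hρ hεε hin] with x hx hlt
  obtain ⟨h1, h2, h3, h4, h5, h6⟩ := hx hlt
  have b0 : |t0 - t0| < ε' := by rw [sub_self, abs_zero]; exact hε'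
  have L : ∀ s w, |s - t0| < ε' → ‖w‖ < ρ → Lft A (w / e) → h (α s + w) < 0 := by
    intro s w k1 k2 k3
    refine (sign_const hh c1 ?_ ⟨t0, _, b0, hy3, hyL, rfl⟩ ⟨s, w, k1, k2, k3, rfl⟩).1 hy1
    rintro _ ⟨s', w', l1, l2, l3, rfl⟩ h0
    exact hav s' l1 w' l2 (Or.inl l3) (hz _ h0)
  have R : ∀ s w, |s - t0| < ε' → ‖w‖ < ρ → Lft A (w / e) → 0 < h (α s - w) := by
    intro s w k1 k2 k3
    refine (sign_const hh c2 ?_ ⟨t0, _, b0, hy3, hyL, rfl⟩ ⟨s, w, k1, k2, k3, rfl⟩).2 hy2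
    rintro _ ⟨s', w', l1, l2, l3, rfl⟩ h0
    have := hav s' l1 (-w') (by rw [norm_neg]; exact l2)
      (Or.inr (by rw [neg_div, neg_neg]; exact l3))
    rw [← sub_eq_add_neg] at this
    exact this (hz _ h0)
  exact ⟨L _ _ h2 h3 h5, L _ _ h1 h4 h6, R _ _ h2 h3 h5, R _ _ h1 h4 h6⟩

theorem continuous_v3 (hα : Continuous α) :
    Continuous (fun x : ℝ × ℝ => v3 α p q x.1 x.2) := by unfold v3; fun_prop
theorem continuous_v4 (hα : Continuous α) :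
    Continuous (fun x : ℝ × ℝ => v4 α p q x.1 x.2) := by unfold v4; fun_prop
theorem continuous_w3 (hα : Continuous α) :
    Continuous (fun x : ℝ × ℝ => w3 α p q x.1 x.2) := by unfold w3; fun_prop
theorem continuous_w4 (hα : Continuous α) :
    Continuous (fun x : ℝ × ℝ => w4 α p q x.1 x.2) := by unfold w4; fun_prop

/-- the signs of the four vertices of small trapezoids away from the ends -/
theorem Curve.small (S : Curve α A γ) (H : Shp A p q) {h : ℂ → ℝ} (hh : Continuous h)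
    (hz : ∀ z, h z = 0 → z ∈ Jc α γ) {tM : ℝ} (htM : tM ∈ Ioo (0 : ℝ) 1)
    (hbase : ∀ᶠ x : ℝ × ℝ in 𝓝 (tM, tM), x.1 < x.2 → h (v3 α p q x.1 x.2) < 0 ∧
      h (v4 α p q x.1 x.2) < 0 ∧ 0 < h (w3 α p q x.1 x.2) ∧ 0 < h (w4 α p q x.1 x.2)) :
    ∀ ε0 > 0, ∃ δ > 0, ∀ t u, ε0 ≤ t → t < u → u ≤ 1 - ε0 → u - t < δ →
      h (v3 α p q t u) < 0 ∧ h (v4 α p q t u) < 0 ∧ 0 < h (w3 α p q t u) ∧
      0 < h (w4 α p q t u) := by
  intro ε1 hε1
  -- shrink so that `tM` is in the range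
  set ε0 := min ε1 (min tM (1 - tM) / 2) with hε0
  have h01 : 0 < tM := htM.1
  have h02 : 0 < 1 - tM := by linarith [htM.2]
  have hε0pos : 0 < ε0 := by positivity
  have hm1 : ε0 ≤ tM / 2 := (min_le_right _ _).trans (by
    have := min_le_left tM (1 - tM); linarith)
  have hm2 : ε0 ≤ (1 - tM) / 2 := (min_le_right _ _).trans (by
    have := min_le_right tM (1 - tM); linarith)
  have hav : ∀ᶠ r : ℝ in 𝓝 0, ∀ t ∈ Icc ε0 (1 - ε0), 0 < r →
      v3 α p q t (t + r) ∉ Jc α γ ∧ v4 α p q t (t + r) ∉ Jc α γ ∧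
      w3 α p q t (t + r) ∉ Jc α γ ∧ w4 α p q t (t + r) ∉ Jc α γ := by
    apply isCompact_Icc.eventually_forall_of_forall_eventually
    intro t ht
    have ht' : t ∈ Ioo (0 : ℝ) 1 := ⟨by linarith [ht.1], by linarith [ht.2]⟩
    have hT : Tendsto (fun z : ℝ × ℝ => (z.2, z.2 + z.1)) (𝓝 (0, t)) (𝓝 (t, t)) := by
      have hc : Continuous (fun z : ℝ × ℝ => (z.2, z.2 + z.1)) := by fun_prop
      have := hc.tendsto (0, t)
      simpa using this
    filter_upwards [hT.eventually (S.small_avoid H ht')] with z hz hr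
    exact hz (by simpa using hr)
  obtain ⟨δ, hδ, hδ'⟩ := Metric.eventually_nhds_iff.mp hav
  -- a base point
  have hcurve : Tendsto (fun r : ℝ => (tM, tM + r)) (𝓝[>] 0) (𝓝 (tM, tM)) := by
    have hc : Continuous (fun r : ℝ => (tM, tM + r)) := by fun_prop
    have := (hc.tendsto 0).mono_left (nhdsWithin_le_nhds (s := Ioi (0 : ℝ)))
    simpa using this
  have hsm : ∀ᶠ r : ℝ in 𝓝[>] (0 : ℝ), r ∈ Ioo 0 (min δ ((1 - tM) / 2)) :=
    Ioo_mem_nhdsGT (by positivity)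
  obtain ⟨r, hr1, hr2⟩ := ((hcurve.eventually hbase).and hsm).exists
  have hbr := hr1 (show tM < tM + r by linarith [hr2.1])
  refine ⟨δ, hδ, ?_⟩
  intro t u ht htu hu hut
  have hle : ε0 ≤ ε1 := min_le_left _ _
  -- the convex parameter set
  set Sset : Set (ℝ × ℝ) := {x | ε0 ≤ x.1 ∧ x.1 < x.2 ∧ x.2 ≤ 1 - ε0 ∧ x.2 - x.1 < δ} with hSset
  have hconv : Convex ℝ Sset := by
    intro x hx y hy s t hs ht hst
    obtain ⟨a1, a2, a3, a4⟩ := hx
    obtain ⟨b1, b2, b3, b4⟩ := hy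
    have e1 : (s • x + t • y).1 = s * x.1 + t * y.1 := by simp
    have e2 : (s • x + t • y).2 = s * x.2 + t * y.2 := by simp
    have hs' : s = 1 - t := by linarith
    refine ⟨?_, ?_, ?_, ?_⟩
    · rw [e1]
      have k1 := mul_le_mul_of_nonneg_left a1 hs
      have k2 := mul_le_mul_of_nonneg_left b1 ht
      have : s * ε0 + t * ε0 = ε0 := by rw [hs']; ring
      linarith
    · rw [e1, e2]
      rcases eq_or_lt_of_le hs with h3 | h3
      · have : t = 1 := by linarith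
        rw [← h3, this]; linarith
      · have k1 := mul_lt_mul_of_pos_left a2 h3
        have k2 := mul_le_mul_of_nonneg_left b2.le ht
        linarith
    · rw [e2]
      have k1 := mul_le_mul_of_nonneg_left a3 hs
      have k2 := mul_le_mul_of_nonneg_left b3 ht
      have : s * (1 - ε0) + t * (1 - ε0) = 1 - ε0 := by rw [hs']; ring
      linarith
    · rw [e1, e2]
      rcases eq_or_lt_of_le hs with h3 | h3
      · have : t = 1 := by linarith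
        rw [← h3, this]; linarith
      · have k1 := mul_lt_mul_of_pos_left a4 h3
        have k2 := mul_le_mul_of_nonneg_left b4.le ht
        have : s * δ + t * δ = δ := by rw [hs']; ring
        linarith
  have hpre : IsPreconnected Sset := hconv.isPreconnected
  have m1 : (tM, tM + r) ∈ Sset := by
    have k1 := hr2.2.trans_le (min_le_left _ _)
    have k2 := hr2.2.trans_le (min_le_right _ _)
    refine ⟨?_, ?_, ?_, ?_⟩
    · show ε0 ≤ tM; linarith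
    · show tM < tM + r; linarith [hr2.1]
    · show tM + r ≤ 1 - ε0; linarith
    · show tM + r - tM < δ; linarith
  have m2 : (t, u) ∈ Sset := by
    refine ⟨?_, htu, ?_, hut⟩
    · show ε0 ≤ t; linarith
    · show u ≤ 1 - ε0; linarith
  have hall : ∀ x ∈ Sset, v3 α p q x.1 x.2 ∉ Jc α γ ∧ v4 α p q x.1 x.2 ∉ Jc α γ ∧
      w3 α p q x.1 x.2 ∉ Jc α γ ∧ w4 α p q x.1 x.2 ∉ Jc α γ := by
    rintro ⟨t', u'⟩ ⟨a1, a2, a3, a4⟩
    simp only at a1 a2 a3 a4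
    have := hδ' (y := u' - t') (by
      rw [Real.dist_eq, sub_zero, abs_of_pos (by linarith)]; exact a4) t'
      ⟨a1, by linarith⟩ (by linarith)
    rwa [add_sub_cancel] at this
  have key : ∀ V : ℝ × ℝ → ℂ, Continuous V → (∀ x ∈ Sset, V x ∉ Jc α γ) →
      (h (V (tM, tM + r)) < 0 → h (V (t, u)) < 0) ∧ (0 < h (V (tM, tM + r)) → 0 < h (V (t, u))) := by
    intro V hV hVJ
    refine sign_const hh (hpre.image V hV.continuousOn) ?_ ⟨_, m1, rfl⟩ ⟨_, m2, rfl⟩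
    rintro _ ⟨x, hx, rfl⟩ h0
    exact hVJ x hx (hz _ h0)
  exact ⟨(key _ (continuous_v3 S.hα) fun x hx => (hall x hx).1).1 hbr.1,
    (key _ (continuous_v4 S.hα) fun x hx => (hall x hx).2.1).1 hbr.2.1,
    (key _ (continuous_w3 S.hα) fun x hx => (hall x hx).2.2.1).2 hbr.2.2.1,
    (key _ (continuous_w4 S.hα) fun x hx => (hall x hx).2.2.2).2 hbr.2.2.2⟩

end Pool.Agent.GenTrap
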