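import Pool.Agent.Lib.MP_2fd4e2_co.Gen.Corner2

/-!
The mirror image, the sides and the trapezoid.
-/

set_option autoImplicit false

namespace Pool.Agent.GenTrap

open Complex Set Filter Topology Pool.Agent.ArcTrap Pool.Agent.LipTrap

/-- reflection in the imaginary axis -/
def mi (z : ℂ) : ℂ := -(starRingEnd ℂ) z

@[simp] theorem mi_mi (z : ℂ) : mi (mi z) = z := by
  unfold mi; simp

theorem mi_inj {z w : ℂ} (h : mi z = mi w) : z = w := by
  rw [← mi_mi z, h, mi_mi]

theorem continuous_mi : Continuous mi := by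
  unfold mi
  exact Complex.continuous_conj.neg

/-- the mirrored and reversed path -/
def mir (α : ℝ → ℂ) : ℝ → ℂ := fun t => mi (α (1 - t))

theorem mir_mir (α : ℝ → ℂ) : mir (mir α) = α := by
  funext t
  unfold mir
  rw [mi_mi, sub_sub_cancel]

variable {α γ : ℝ → ℂ} {A p q : ℝ} {h : ℂ → ℝ}

theorem v3_mir (t u : ℝ) : v3 (mir α) p q (1 - u) (1 - t) = mi (v4 α p q t u) := by
  unfold v3 v4 mir mi
  rw [sub_sub_cancel, sub_sub_cancel]
  apply Complex.ext
  · simp only [Complex.add_re, Complex.mul_re, Complex.sub_re, Complex.neg_re, Complex.conj_re,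
      Complex.sub_im, Complex.neg_im, Complex.conj_im]
    ring
  · simp only [Complex.add_im, Complex.mul_im, Complex.sub_re, Complex.neg_re, Complex.conj_re,
      Complex.sub_im, Complex.neg_im, Complex.conj_im]
    ring

theorem v4_mir (t u : ℝ) : v4 (mir α) p q (1 - u) (1 - t) = mi (v3 α p q t u) := by
  unfold v3 v4 mir mi
  rw [sub_sub_cancel, sub_sub_cancel]
  apply Complex.ext
  · simp only [Complex.add_re, Complex.mul_re, Complex.sub_re, Complex.neg_re, Complex.conj_re,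
      Complex.sub_im, Complex.neg_im, Complex.conj_im]
    ring
  · simp only [Complex.add_im, Complex.mul_im, Complex.sub_re, Complex.neg_re, Complex.conj_re,
      Complex.sub_im, Complex.neg_im, Complex.conj_im]
    ring

theorem w3_mir (t u : ℝ) : w3 (mir α) p q (1 - u) (1 - t) = mi (w4 α p q t u) := by
  unfold w3 w4 mir mi
  rw [sub_sub_cancel, sub_sub_cancel]
  apply Complex.ext
  · simp only [Complex.mul_re, Complex.sub_re, Complex.neg_re, Complex.conj_re,
      Complex.sub_im, Complex.neg_im, Complex.conj_im]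
    ring
  · simp only [Complex.mul_im, Complex.sub_re, Complex.neg_re, Complex.conj_re,
      Complex.sub_im, Complex.neg_im, Complex.conj_im]
    ring

theorem w4_mir (t u : ℝ) : w4 (mir α) p q (1 - u) (1 - t) = mi (w3 α p q t u) := by
  unfold w3 w4 mir mi
  rw [sub_sub_cancel, sub_sub_cancel]
  apply Complex.ext
  · simp only [Complex.mul_re, Complex.sub_re, Complex.neg_re, Complex.conj_re,
      Complex.sub_im, Complex.neg_im, Complex.conj_im]
    ring
  · simp only [Complex.mul_im, Complex.sub_re, Complex.neg_re, Complex.conj_re,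
      Complex.sub_im, Complex.neg_im, Complex.conj_im]
    ring

theorem Jc_mir {z : ℂ} : mi z ∈ Jc (mir α) (mir γ) ↔ z ∈ Jc α γ := by
  have key : ∀ β : ℝ → ℂ, mi z ∈ mir β '' Icc 0 1 ↔ z ∈ β '' Icc 0 1 := by
    intro β
    constructor
    · rintro ⟨t, ht, h1⟩
      exact ⟨1 - t, ⟨by linarith [ht.2], by linarith [ht.1]⟩, mi_inj h1⟩
    · rintro ⟨t, ht, rfl⟩
      refine ⟨1 - t, ⟨by linarith [ht.2], by linarith [ht.1]⟩, ?_⟩
      unfold mir
      rw [sub_sub_cancel]
  unfold Jc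
  rw [mem_union, mem_union, key, key]

theorem continuous_mir {β : ℝ → ℂ} (hβ : Continuous β) : Continuous (mir β) := by
  unfold mir
  exact continuous_mi.comp (hβ.comp (continuous_const.sub continuous_id))

theorem Curve.mirror (S : Curve α A γ) : Curve (mir α) A (mir γ) where
  hA := S.hA
  hα := continuous_mir S.hα
  inj := by
    intro t ht u hu htu
    have := S.inj (show 1 - t ∈ Icc (0 : ℝ) 1 from ⟨by linarith [ht.2], by linarith [ht.1]⟩)
      (show 1 - u ∈ Icc (0 : ℝ) 1 from ⟨by linarith [hu.2], by linarith [hu.1]⟩) (mi_inj htu)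
    linarith
  loc := by
    intro t0 ht0
    obtain ⟨e, he, ε, hε, hc⟩ := S.loc (1 - t0) ⟨by linarith [ht0.2], by linarith [ht0.1]⟩
    refine ⟨(starRingEnd ℂ) e, by simpa using he, ε, hε, ?_⟩
    intro t ht u hu h1 h2 htu
    have hF := hc (1 - u) ⟨by linarith [hu.2], by linarith [hu.1]⟩ (1 - t)
      ⟨by linarith [ht.2], by linarith [ht.1]⟩
      (by rw [show 1 - u - (1 - t0) = -(u - t0) by ring, abs_neg]; exact h2)
      (by rw [show 1 - t - (1 - t0) = -(t - t0) by ring, abs_neg]; exact h1) (by linarith)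
    have e1 : (mir α u - mir α t) / (starRingEnd ℂ) e
        = (starRingEnd ℂ) ((α (1 - t) - α (1 - u)) / e) := by
      unfold mir mi
      rw [map_div₀, map_sub]
      ring
    rw [e1]
    unfold Fwd at hF ⊢
    rw [Complex.conj_re, Complex.conj_im, abs_neg]
    exact hF
  hγ := continuous_mir S.hγ
  g0 := by unfold mir; rw [sub_zero, S.g1]
  g1 := by unfold mir; rw [sub_self, S.g0]
  av := by
    intro s hs t ht heq
    exact S.av (1 - s) ⟨by linarith [hs.2], by linarith [hs.1]⟩ (1 - t)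
      ⟨by linarith [ht.2], by linarith [ht.1]⟩ (mi_inj heq)

theorem Data.mirror (D : Data α γ A p q h) :
    Data (mir α) (mir γ) A p q (fun z => h (mi z)) where
  S := D.S.mirror
  H := D.H
  hh := D.hh.comp continuous_mi
  hz := by
    intro z hz
    have := D.hz _ hz
    rw [← Jc_mir (α := α) (γ := γ), mi_mi] at this
    exact this
  small := by
    intro ε0 hε0
    obtain ⟨δ, hδ, hs⟩ := D.small ε0 hε0
    refine ⟨δ, hδ, ?_⟩
    intro t u h1 h2 h3 h4
    have hs' := hs (1 - u) (1 - t) (by linarith) (by linarith) (by linarith) (by linarith)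
    have e3 := v3_mir (α := α) (p := p) (q := q) (1 - u) (1 - t)
    have e4 := v4_mir (α := α) (p := p) (q := q) (1 - u) (1 - t)
    have f3 := w3_mir (α := α) (p := p) (q := q) (1 - u) (1 - t)
    have f4 := w4_mir (α := α) (p := p) (q := q) (1 - u) (1 - t)
    rw [sub_sub_cancel, sub_sub_cancel] at e3 e4 f3 f4
    rw [e3, e4, f3, f4, mi_mi, mi_mi, mi_mi, mi_mi]
    exact ⟨hs'.2.1, hs'.1, hs'.2.2.2, hs'.2.2.1⟩
  legP := by
    intro u hu
    have e4 := v4_mir (α := α) (p := p) (q := q) (1 - u) 1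
    rw [sub_self, sub_sub_cancel] at e4
    rw [e4, Jc_mir]
    exact D.legQ (1 - u) ⟨by linarith [hu.2], by linarith [hu.1]⟩
  legQ := by
    intro t ht
    have e3 := v3_mir (α := α) (p := p) (q := q) 0 (1 - t)
    rw [sub_zero, sub_sub_cancel] at e3
    rw [e3, Jc_mir]
    exact D.legP (1 - t) ⟨by linarith [ht.2], by linarith [ht.1]⟩

theorem Data.sideP (D : Data α γ A p q h) (hc : CorG α γ p q) {u : ℝ} (hu0 : 0 < u)
    (hu1 : u ≤ 1) : 0 < h (v4 α p q 0 u) := by
  obtain ⟨r, hr, hnear⟩ := D.legNear hc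
  set u' := min u r with hu'
  have h1 : 0 < u' := lt_min hu0 hr
  have h2 : u' ≤ u := min_le_left _ _
  have hα := D.S.hα
  have hS : IsPreconnected ((fun v : ℝ => v4 α p q 0 v) '' Icc u' u) := by
    apply isPreconnected_Icc.image
    apply Continuous.continuousOn
    unfold v4; fun_prop
  refine (sign_const D.hh hS ?_ ⟨u', ⟨le_rfl, h2⟩, rfl⟩ ⟨u, ⟨h2, le_rfl⟩, rfl⟩).2
    (hnear u' h1 (min_le_right _ _))
  rintro _ ⟨v, hv, rfl⟩ h0
  exact D.legP v ⟨by linarith [hv.1], by linarith [hv.2]⟩ (D.hz _ h0)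

theorem Data.corner' (D : Data α γ A p q h) (hc : CorG (mir α) (mir γ) p q) :
    ∃ r > 0, ∀ t u, t < u → u ≤ 1 → 1 - r ≤ t →
      ¬ (0 ≤ h (v4 α p q t u) ∧ h (v3 α p q t u) ≤ 0) := by
  obtain ⟨r, hr, hh⟩ := D.mirror.corner hc
  refine ⟨r, hr, ?_⟩
  intro t u htu hu hrt
  have := hh (1 - u) (1 - t) (by linarith) (by linarith) (by linarith)
  rwa [v3_mir, v4_mir, mi_mi, mi_mi] at this

theorem Data.sideQ (D : Data α γ A p q h) (hc : CorG (mir α) (mir γ) p q) {t : ℝ} (ht0 : 0 ≤ t)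
    (ht1 : t < 1) : 0 < h (v3 α p q t 1) := by
  have := D.mirror.sideP hc (u := 1 - t) (by linarith) (by linarith)
  have e4 := v4_mir (α := α) (p := p) (q := q) t 1
  rw [sub_self] at e4
  rwa [e4, mi_mi] at this

theorem Data.nearP (D : Data α γ A p q h) (hc : CorG α γ p q) {r : ℝ}
    (hr : 0 < r) : ∃ e > 0, ∀ t u, 0 ≤ t → t ≤ e → r ≤ u → u ≤ 1 →
      0 < h (v4 α p q t u) := by
  have h1 : ∀ᶠ t in 𝓝 (0 : ℝ), ∀ u ∈ Icc r 1, 0 < h (v4 α p q t u) := by
    apply isCompact_Icc.eventually_forall_of_forall_eventually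
    intro u hu
    have h2 := D.sideP hc (u := u) (by linarith [hu.1]) hu.2
    have hcc : Continuous (fun x : ℝ × ℝ => h (v4 α p q x.1 x.2)) :=
      D.hh.comp (continuous_v4 D.S.hα)
    exact (hcc.tendsto (0, u)).eventually (lt_mem_nhds h2)
  obtain ⟨e, he, h2⟩ := Metric.eventually_nhds_iff.mp h1
  refine ⟨e / 2, by positivity, ?_⟩
  intro t u ht1 ht2 hu1 hu2
  apply h2 _ u ⟨hu1, hu2⟩
  rw [Real.dist_eq, sub_zero, abs_of_nonneg ht1]
  linarith

theorem Data.nearQ (D : Data α γ A p q h) (hc : CorG (mir α) (mir γ) p q) {r : ℝ}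
    (hr : 0 < r) : ∃ e > 0, ∀ t u, u ≤ 1 → 1 - e ≤ u → t ≤ 1 - r → 0 ≤ t →
      0 < h (v3 α p q t u) := by
  obtain ⟨e, he, hh⟩ := D.mirror.nearP hc hr
  refine ⟨e, he, ?_⟩
  intro t u h1 h2 h3 h4
  have := hh (1 - u) (1 - t) (by linarith) (by linarith) (by linarith) (by linarith)
  rwa [v4_mir, mi_mi] at this

/-- **The trapezoid.** -/
theorem Data.main (D : Data α γ A p q h) (hcP : CorG α γ p q)
    (hcQ : CorG (mir α) (mir γ) p q) :
    ∃ t u, 0 ≤ t ∧ t < u ∧ u ≤ 1 ∧ v3 α p q t u ∈ Jc α γ ∧ v4 α p q t u ∈ Jc α γ := by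
  obtain ⟨r1, hr1, hP⟩ := D.corner hcP
  obtain ⟨r2, hr2, hQ⟩ := D.corner' hcQ
  obtain ⟨e1, he1, nP⟩ := D.nearP hcP hr1
  obtain ⟨e2, he2, nQ⟩ := D.nearQ hcQ hr2
  obtain ⟨ε, hε, hε1, hε2, hε3⟩ : ∃ ε > 0, ε ≤ e1 ∧ ε ≤ e2 ∧ ε ≤ (1 : ℝ) / 2 :=
    ⟨min e1 (min e2 (1 / 2)), by positivity, min_le_left _ _,
      (min_le_right _ _).trans (min_le_left _ _), (min_le_right _ _).trans (min_le_right _ _)⟩
  obtain ⟨w, hw, hsm⟩ := D.small (ε / 2) (by positivity)
  -- the level of the bottom side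
  obtain ⟨y0, hy0, hy1, hy2⟩ : ∃ y0 > 0, y0 ≤ 1 / 2 ∧ y0 < w :=
    ⟨min (1 / 2) (w / 2), by positivity, min_le_left _ _, by
      have := min_le_right (1 / 2) (w / 2); linarith⟩
  set τ : ℝ → ℝ := fun x => ε + (1 - 2 * ε) * x with hτ
  set Y : ℝ → ℝ := fun y => y0 + (1 - y0) * y with hY
  set T : ℝ × ℝ → ℝ := fun z => (1 - Y z.2) * τ z.1 with hT
  set U : ℝ × ℝ → ℝ := fun z => (1 - Y z.2) * τ z.1 + Y z.2 with hU
  have hTc : Continuous T := by rw [hT, hτ, hY]; fun_prop
  have hUc : Continuous U := by rw [hU, hτ, hY]; fun_prop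
  have hτI : ∀ x ∈ Icc (0 : ℝ) 1, ε ≤ τ x ∧ τ x ≤ 1 - ε := by
    intro x hx
    have k : 0 ≤ 1 - 2 * ε := by linarith
    have k1 := mul_nonneg k hx.1
    have k2 := mul_le_mul_of_nonneg_left hx.2 k
    simp only [hτ]
    constructor <;> linarith
  have hYI : ∀ y ∈ Icc (0 : ℝ) 1, y0 ≤ Y y ∧ Y y ≤ 1 := by
    intro y hy
    have k : 0 ≤ 1 - y0 := by linarith
    have k1 := mul_nonneg k hy.1
    have k2 := mul_le_mul_of_nonneg_left hy.2 k
    simp only [hY]
    constructor <;> linarith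
  have hTU : ∀ z, U z - T z = Y z.2 := by
    intro z; simp only [hT, hU]; ring
  obtain ⟨x, hx, y, hy, h3, h4⟩ := four_sign
    (F3 := fun z => h (v3 α p q (T z) (U z)))
    (F4 := fun z => h (v4 α p q (T z) (U z)))
    ((D.hh.comp (continuous_v3 D.S.hα)).comp (hTc.prodMk hUc))
    ((D.hh.comp (continuous_v4 D.S.hα)).comp (hTc.prodMk hUc))
    (by
      intro x hx
      obtain ⟨k1, k2⟩ := hτI x hx
      have t4 : Y 0 = y0 := by simp only [hY]; ring
      have t1 : T (x, 0) = τ x - y0 * τ x := by simp only [hT, t4]; ring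
      have t2 : U (x, 0) = τ x + y0 * (1 - τ x) := by simp only [hU, t4]; ring
      have t3 : U (x, 0) - T (x, 0) = y0 := by rw [hTU]; exact t4
      have t6 : y0 * τ x ≤ 1 / 2 * τ x :=
        mul_le_mul_of_nonneg_right hy1 (by linarith)
      have t7 : y0 * (1 - τ x) ≤ 1 / 2 * (1 - τ x) :=
        mul_le_mul_of_nonneg_right hy1 (by linarith)
      have := hsm (T (x, 0)) (U (x, 0)) (by rw [t1]; linarith) (by linarith)
        (by rw [t2]; linarith) (by linarith)
      exact ⟨this.1, this.2.1⟩)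
    (by
      intro x hx
      have t0 : Y 1 = 1 := by simp only [hY]; ring
      have t1 : T (x, 1) = 0 := by simp only [hT, t0]; ring
      have t2 : U (x, 1) = 1 := by simp only [hU, t0]; ring
      simp only [t1, t2]
      exact ⟨D.sideQ hcQ le_rfl zero_lt_one, D.sideP hcP zero_lt_one le_rfl⟩)
    (by
      rintro y hy ⟨k3, k4⟩
      obtain ⟨n1, n2⟩ := hYI y hy
      have t1 : T (0, y) = (1 - Y y) * ε := by simp only [hT, hτ]; ring
      have t2 : U (0, y) = (1 - Y y) * ε + Y y := by simp only [hU, hτ]; ring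
      simp only [t1, t2] at k3 k4
      have m1 : 0 ≤ (1 - Y y) * ε := mul_nonneg (by linarith) hε.le
      have m2 : 0 < Y y := by linarith
      have m3 : (1 - Y y) * ε ≤ ε := by nlinarith
      have m5 : (1 - Y y) * ε + Y y ≤ 1 := by
        have : (1 - Y y) * ε ≤ (1 - Y y) * 1 :=
          mul_le_mul_of_nonneg_left (by linarith) (by linarith)
        linarith
      rcases le_or_gt ((1 - Y y) * ε + Y y) r1 with h5 | h5
      · exact hP _ _ m1 (by linarith) h5 ⟨k3, k4⟩
      · have := nP ((1 - Y y) * ε) ((1 - Y y) * ε + Y y) m1 (by linarith) h5.le m5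
        linarith)
    (by
      rintro y hy ⟨k3, k4⟩
      obtain ⟨n1, n2⟩ := hYI y hy
      have t1 : T (1, y) = 1 - (1 - Y y) * ε - Y y := by simp only [hT, hτ]; ring
      have t2 : U (1, y) = 1 - (1 - Y y) * ε := by simp only [hU, hτ]; ring
      simp only [t1, t2] at k3 k4
      have m1 : 0 ≤ (1 - Y y) * ε := mul_nonneg (by linarith) hε.le
      have m2 : 0 < Y y := by linarith
      have m3 : (1 - Y y) * ε ≤ ε := by nlinarith
      have m5 : 0 ≤ 1 - (1 - Y y) * ε - Y y := by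
        have : (1 - Y y) * ε ≤ (1 - Y y) * 1 :=
          mul_le_mul_of_nonneg_left (by linarith) (by linarith)
        linarith
      rcases le_or_gt (1 - r2) (1 - (1 - Y y) * ε - Y y) with h5 | h5
      · exact hQ _ _ (by linarith) (by linarith) h5 ⟨k4, k3⟩
      · have := nQ (1 - (1 - Y y) * ε - Y y) (1 - (1 - Y y) * ε) (by linarith)
          (by linarith) h5.le m5
        linarith)
  obtain ⟨k1, k2⟩ := hτI x hx
  obtain ⟨n1, n2⟩ := hYI y hy
  refine ⟨T (x, y), U (x, y), ?_, ?_, ?_, D.hz _ h3, D.hz _ h4⟩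
  · simp only [hT]
    exact mul_nonneg (by linarith) (by linarith)
  · have e : U (x, y) - T (x, y) = Y y := hTU (x, y)
    linarith
  · have e : 1 - U (x, y) = (1 - Y y) * (1 - τ x) := by simp only [hU]; ring
    have := mul_nonneg (show 0 ≤ 1 - Y y by linarith) (show 0 ≤ 1 - τ x by linarith)
    linarith

end Pool.Agent.GenTrap
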