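import Pool.Agent.Lib.MP_2fd4e2_co.Gen.Local
import Pool.Agent.Lib.MP_2fd4e2_co.Lip.Inscribe

/-!
The separating function of a closed curve with a locally Lipschitz arc.
-/

set_option autoImplicit false

namespace Pool.Agent.GenTrap

open Complex Set Filter Topology Pool.Agent.ArcTrap Pool.Agent.LipTrap

variable {α γ : ℝ → ℂ} {A : ℝ}

theorem c01_low {x : ℝ} (hx : x ≤ 0) : c01 x = 0 := by
  unfold c01
  rw [min_eq_left (by linarith), max_eq_left hx]

theorem c01_high {x : ℝ} (hx : 1 ≤ x) : c01 x = 1 := by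
  unfold c01
  rw [min_eq_right hx, max_eq_right zero_le_one]

theorem Curve.sepG (S : Curve α A γ) : ∃ h : ℂ → ℝ, Continuous h ∧
    (∀ z, h z = 0 → z ∈ Jc α γ) ∧ ∃ tM ∈ Ioo (0 : ℝ) 1, ∃ e : ℂ, ∃ ε > 0,
      ConeAt α A tM e ε ∧ ∀ᶠ y : ℝ in 𝓝[>] (0 : ℝ), h (α tM + (y : ℂ) * I * e) < 0 ∧
      0 < h (α tM - (y : ℂ) * I * e) := by
  obtain ⟨e, he, ε, hε, hcone⟩ := S.loc (1 / 2) ⟨by norm_num, by norm_num⟩
  set δ := min ε (1 / 2) / 2 with hδ
  have hm1 := min_le_left ε (1 / 2)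
  have hm2 := min_le_right ε (1 / 2)
  have hδpos : 0 < δ := by positivity
  set tm := 1 / 2 - δ with htm
  set tp := 1 / 2 + δ with htp
  have htm0 : 0 < tm := by rw [htm]; linarith
  have htp1 : tp < 1 := by rw [htp]; linarith
  have hmp : tm < tp := by rw [htm, htp]; linarith
  have hI : ∀ t ∈ Icc tm tp, t ∈ Ioo (0 : ℝ) 1 := fun t ht =>
    ⟨by linarith [ht.1], by linarith [ht.2]⟩
  have hI' : ∀ t ∈ Icc tm tp, |t - 1 / 2| < ε := by
    intro t ht
    have h1 := ht.1
    have h2 := ht.2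
    rw [htm] at h1
    rw [htp] at h2
    rw [abs_lt]
    constructor <;> linarith
  set Φ : ℂ → ℂ := fun z => (z - α (1 / 2)) / e with hΦ
  have hΦc : Continuous Φ := by rw [hΦ]; fun_prop
  have hΦinj : ∀ z w, Φ z = Φ w → z = w := by
    intro z w h
    simp only [hΦ] at h
    rw [div_left_inj' he] at h
    exact sub_left_injective h
  have hα := S.hα
  -- the chords in the frame
  have hch : ∀ t ∈ Icc tm tp, ∀ u ∈ Icc tm tp, t < u →
      (Φ (α t)).re < (Φ (α u)).re ∧
      |(Φ (α u)).im - (Φ (α t)).im| ≤ A * ((Φ (α u)).re - (Φ (α t)).re) := by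
    intro t ht u hu htu
    have h1 := hcone t ⟨(hI t ht).1.le, (hI t ht).2.le⟩ u ⟨(hI u hu).1.le, (hI u hu).2.le⟩
      (hI' t ht) (hI' u hu) htu
    have e1 : (α u - α t) / e = Φ (α u) - Φ (α t) := by simp only [hΦ]; ring
    rw [e1] at h1
    obtain ⟨h2, h3⟩ := h1
    rw [Complex.sub_re] at h2 h3
    rw [Complex.sub_im] at h3
    exact ⟨by linarith, h3⟩
  set a' := (Φ (α tm)).re with ha'
  set b' := (Φ (α tp)).re with hb'
  have hmI : tm ∈ Icc tm tp := ⟨le_rfl, hmp.le⟩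
  have hpI : tp ∈ Icc tm tp := ⟨hmp.le, le_rfl⟩
  have hab : a' < b' := (hch tm hmI tp hpI hmp).1
  have hxc : Continuous (fun t => (Φ (α t)).re) := Complex.continuous_re.comp (hΦc.comp hα)
  have hex : ∀ x ∈ Icc a' b', ∃ t ∈ Icc tm tp, (Φ (α t)).re = x := by
    intro x hx
    obtain ⟨t, ht, htx⟩ := intermediate_value_Icc hmp.le hxc.continuousOn hx
    exact ⟨t, ht, htx⟩
  choose! τ hτ1 hτ2 using hex
  have hτu : ∀ t ∈ Icc tm tp, (Φ (α t)).re ∈ Icc a' b' ∧ τ (Φ (α t)).re = t := by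
    intro t ht
    have h1 : (Φ (α t)).re ∈ Icc a' b' := by
      constructor
      · rcases eq_or_lt_of_le ht.1 with h | h
        · rw [ha', h]
        · exact (hch tm hmI t ht h).1.le
      · rcases eq_or_lt_of_le ht.2 with h | h
        · rw [hb', h]
        · exact (hch t ht tp hpI h).1.le
    refine ⟨h1, ?_⟩
    have h2 := hτ1 _ h1
    have h3 := hτ2 _ h1
    rcases lt_trichotomy (τ (Φ (α t)).re) t with h | h | h
    · have := (hch _ h2 t ht h).1
      linarith
    · exact h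
    · have := (hch t ht _ h2 h).1
      linarith
  set f : ℝ → ℝ := fun x => (Φ (α (τ (cl a' b' x)))).im with hf
  have hfLip : ∀ x y, |f x - f y| ≤ A * |x - y| := by
    intro x y
    have k1 := cl_mem hab.le x
    have k2 := cl_mem hab.le y
    have k3 : |f x - f y| ≤ A * |cl a' b' x - cl a' b' y| := by
      have l1 := hτ2 _ k1
      have l2 := hτ2 _ k2
      rcases lt_trichotomy (τ (cl a' b' x)) (τ (cl a' b' y)) with h | h | h
      · obtain ⟨m1, m2⟩ := hch _ (hτ1 _ k1) _ (hτ1 _ k2) h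
        rw [l1, l2] at m1 m2
        rw [abs_sub_comm, abs_sub_comm (cl a' b' x), abs_of_pos (show 0 < cl a' b' y - cl a' b' x by
          linarith)]
        exact m2
      · simp only [hf]
        rw [h, sub_self, abs_zero]
        exact mul_nonneg S.hA (abs_nonneg _)
      · obtain ⟨m1, m2⟩ := hch _ (hτ1 _ k2) _ (hτ1 _ k1) h
        rw [l1, l2] at m1 m2
        rw [abs_of_pos (show 0 < cl a' b' x - cl a' b' y by linarith)]
        exact m2
    exact k3.trans (mul_le_mul_of_nonneg_left (cl_lip x y) S.hA)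
  have hfc : Continuous f := by
    have : LipschitzWith ⟨A, S.hA⟩ f := by
      apply LipschitzWith.of_dist_le_mul
      intro x y
      rw [Real.dist_eq, Real.dist_eq]
      exact hfLip x y
    exact this.continuous
  have hfx : ∀ x ∈ Icc a' b', (⟨x, f x⟩ : ℂ) = Φ (α (τ x)) := by
    intro x hx
    apply Complex.ext
    · exact (hτ2 x hx).symm
    · simp only [hf]; rw [cl_of_mem hx]
  -- the rest of the curve
  set ζ : ℝ → ℂ := fun s => α (tm * (1 - c01 s)) + γ (c01 (s - 1)) - α 0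
    + α (1 - (1 - tp) * c01 (s - 2)) - α 1 with hζ
  have hζc : Continuous ζ := by
    have h1 := continuous_c01
    have hγ := S.hγ
    rw [hζ]
    fun_prop
  have hζ1 : ∀ s ∈ Icc (0 : ℝ) 1, ζ s = α (tm * (1 - s)) := by
    intro s hs
    simp only [hζ]
    rw [c01_of_mem hs, c01_low (show s - 1 ≤ 0 by linarith [hs.2]),
      c01_low (show s - 2 ≤ 0 by linarith [hs.2]), S.g0, mul_zero, sub_zero]
    ring
  have hζ2 : ∀ s ∈ Icc (1 : ℝ) 2, ζ s = γ (s - 1) := by
    intro s hs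
    simp only [hζ]
    rw [c01_high hs.1, c01_of_mem (x := s - 1) ⟨by linarith [hs.1], by linarith [hs.2]⟩,
      c01_low (show s - 2 ≤ 0 by linarith [hs.2]), sub_self, mul_zero, mul_zero, sub_zero]
    ring
  have hζ3 : ∀ s ∈ Icc (2 : ℝ) 3, ζ s = α (1 - (1 - tp) * (s - 2)) := by
    intro s hs
    simp only [hζ]
    rw [c01_high (show 1 ≤ s by linarith [hs.1]), c01_high (show 1 ≤ s - 1 by linarith [hs.1]),
      c01_of_mem (x := s - 2) ⟨by linarith [hs.1], by linarith [hs.2]⟩, sub_self, mul_zero, S.g1]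
    ring
  have hζJ : ∀ s ∈ Icc (0 : ℝ) 3, ζ s ∈ Jc α γ := by
    intro s hs
    rcases le_or_gt s 1 with h | h
    · rw [hζ1 s ⟨hs.1, h⟩]
      left
      refine ⟨_, ⟨mul_nonneg htm0.le (by linarith), ?_⟩, rfl⟩
      have := mul_nonneg htm0.le hs.1
      linarith
    · rcases le_or_gt s 2 with h' | h'
      · rw [hζ2 s ⟨h.le, h'⟩]
        right
        exact ⟨_, ⟨by linarith, by linarith⟩, rfl⟩
      · rw [hζ3 s ⟨h'.le, hs.2⟩]
        left
        refine ⟨_, ⟨?_, ?_⟩, rfl⟩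
        · have : (1 - tp) * (s - 2) ≤ (1 - tp) * 1 :=
            mul_le_mul_of_nonneg_left (by linarith [hs.2]) (by linarith)
          linarith
        · have := mul_nonneg (show 0 ≤ 1 - tp by linarith) (show 0 ≤ s - 2 by linarith)
          linarith
  have hba : 0 < b' - a' := by linarith
  set c : ℝ → ℂ := fun v => Φ (ζ (3 * ((v - a') / (b' - a')))) with hc
  have hcc : Continuous c := by
    rw [hc]
    exact hΦc.comp (hζc.comp (by fun_prop))
  have hca : c a' = ⟨a', f a'⟩ := by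
    simp only [hc]
    rw [sub_self, zero_div, mul_zero, hζ1 0 ⟨le_rfl, zero_le_one⟩, sub_zero, mul_one,
      hfx a' ⟨le_rfl, hab.le⟩, ha', (hτu tm hmI).2]
  have hcb : c b' = ⟨b', f b'⟩ := by
    simp only [hc]
    rw [div_self hba.ne', mul_one, hζ3 3 ⟨by norm_num, le_rfl⟩,
      hfx b' ⟨hab.le, le_rfl⟩, hb', (hτu tp hpI).2]
    congr 2
    ring
  have hav : ∀ v ∈ Ioo a' b', ¬ (a' ≤ (c v).re ∧ (c v).re ≤ b' ∧ (c v).im = f (c v).re) := by
    rintro v hv ⟨k1, k2, k3⟩
    have hx : (c v).re ∈ Icc a' b' := ⟨k1, k2⟩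
    have h1 : c v = Φ (α (τ (c v).re)) := by
      rw [← hfx _ hx, ← k3]
    set t := τ (c v).re with ht
    have htI : t ∈ Icc tm tp := hτ1 _ hx
    have ht01 := hI t htI
    set s := 3 * ((v - a') / (b' - a')) with hs
    have h2 : ζ s = α t := hΦinj _ _ h1
    have e1 : 0 < (v - a') / (b' - a') := div_pos (by linarith [hv.1]) hba
    have e2 : (v - a') / (b' - a') < 1 := by rw [div_lt_one hba]; linarith [hv.2]
    have hs0 : 0 < s := by rw [hs]; linarith
    have hs3 : s < 3 := by rw [hs]; linarith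
    rcases le_or_gt s 1 with h | h
    · rw [hζ1 s ⟨hs0.le, h⟩] at h2
      have h4 : 0 < tm * s := mul_pos htm0 hs0
      have h3 := S.inj ⟨mul_nonneg htm0.le (show 0 ≤ 1 - s by linarith), by linarith⟩
        ⟨ht01.1.le, ht01.2.le⟩ h2
      linarith [htI.1]
    · rcases le_or_gt s 2 with h' | h'
      · rw [hζ2 s ⟨h.le, h'⟩] at h2
        exact S.notMem_γ ht01 (s - 1) ⟨by linarith, by linarith⟩ h2
      · rw [hζ3 s ⟨h'.le, hs3.le⟩] at h2
        have h4 : (1 - tp) * (s - 2) < (1 - tp) * 1 :=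
          mul_lt_mul_of_pos_left (by linarith) (by linarith)
        have h5 := mul_nonneg (show 0 ≤ 1 - tp by linarith) (show 0 ≤ s - 2 by linarith)
        have h3 := S.inj ⟨by linarith, by linarith⟩ ⟨ht01.1.le, ht01.2.le⟩ h2
        linarith [htI.2]
  obtain ⟨g, hgc, hgz, hgs⟩ := sep hfc hab hcc hca hcb hav
  refine ⟨fun z => g (Φ z), hgc.comp hΦc, ?_, ?_⟩
  · intro z hz
    rcases hgz _ hz with ⟨v, hv, hcv⟩ | ⟨k1, k2, k3⟩
    · have h1 : z = ζ (3 * ((v - a') / (b' - a'))) := (hΦinj _ _ hcv).symm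
      rw [h1]
      apply hζJ
      have e1 : 0 ≤ (v - a') / (b' - a') := div_nonneg (by linarith [hv.1]) hba.le
      have e2 : (v - a') / (b' - a') ≤ 1 := by rw [div_le_one hba]; linarith [hv.2]
      constructor <;> linarith
    · have h1 : Φ z = Φ (α (τ (Φ z).re)) := by
        rw [← hfx _ ⟨k1, k2⟩, ← k3]
      have h2 := hI _ (hτ1 _ ⟨k1, k2⟩)
      rw [hΦinj _ _ h1]
      exact Or.inl ⟨_, ⟨h2.1.le, h2.2.le⟩, rfl⟩
  · set M := (a' + b') / 2 with hM
    have hMI : M ∈ Icc a' b' := ⟨by rw [hM]; linarith, by rw [hM]; linarith⟩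
    have htMI := hτ1 M hMI
    refine ⟨τ M, hI _ htMI, e, ε / 2, by positivity, ?_, ?_⟩
    · intro t ht u hu h1 h2 h3
      have h4 : |τ M - 1 / 2| ≤ δ := by
        have k1 := htMI.1
        have k2 := htMI.2
        rw [htm] at k1
        rw [htp] at k2
        rw [abs_le]; constructor <;> linarith
      have h5 : δ ≤ ε / 2 := by rw [hδ]; linarith
      apply hcone t ht u hu _ _ h3
      · calc |t - 1 / 2| = |(t - τ M) + (τ M - 1 / 2)| := by congr 1; ring
          _ ≤ |t - τ M| + |τ M - 1 / 2| := abs_add_le _ _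
          _ < ε := by linarith
      · calc |u - 1 / 2| = |(u - τ M) + (τ M - 1 / 2)| := by congr 1; ring
          _ ≤ |u - τ M| + |τ M - 1 / 2| := abs_add_le _ _
          _ < ε := by linarith
    · filter_upwards [hgs] with y hy
      have e1 : Φ (α (τ M) + (y : ℂ) * I * e) = ⟨M, f M + y⟩ := by
        have h1 : Φ (α (τ M) + (y : ℂ) * I * e) = Φ (α (τ M)) + (y : ℂ) * I := by
          simp only [hΦ]
          field_simp
          ring
        rw [h1, ← hfx M hMI]
        apply Complex.ext <;> simp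
      have e2 : Φ (α (τ M) - (y : ℂ) * I * e) = ⟨M, f M - y⟩ := by
        have h1 : Φ (α (τ M) - (y : ℂ) * I * e) = Φ (α (τ M)) - (y : ℂ) * I := by
          simp only [hΦ]
          field_simp
          ring
        rw [h1, ← hfx M hMI]
        apply Complex.ext <;> simp
      rw [e1, e2]
      exact hy

/-- the separating function with the signs near the arc -/
theorem Curve.exists_h (S : Curve α A γ) {p q : ℝ} (H : Shp A p q) :
    ∃ h : ℂ → ℝ, Continuous h ∧ (∀ z, h z = 0 → z ∈ Jc α γ) ∧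
      ∀ ε0 > 0, ∃ δ > 0, ∀ t u, ε0 ≤ t → t < u → u ≤ 1 - ε0 → u - t < δ →
      h (v3 α p q t u) < 0 ∧ h (v4 α p q t u) < 0 ∧ 0 < h (w3 α p q t u) ∧
      0 < h (w4 α p q t u) := by
  obtain ⟨h, hh, hz, tM, htM, e, ε, hε, hcone, hsgn⟩ := S.sepG
  exact ⟨h, hh, hz, S.small H hh hz htM (S.small_base H hh hz htM hε hcone hsgn)⟩

end Pool.Agent.GenTrap
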